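import Pool.Agent.Lib.MP_21a058_co.Two.Loop
import Pool.Agent.Lib.MP_21a058_co.Every.Tr
import Pool.Agent.Lib.MP_21a058_co.Every.Defs

/-!
# The rounding theorem

`s` of `t` disjoint spanning trees, with their proportional share of every cut of a laminar family, up to
an additive constant, in both directions at once (all edges of the cut are counted, whatever their
orientation).
-/

set_option autoImplicit false
set_option linter.unusedSectionVars false

namespace Pool.Agent.Lib.MP_21a058_co.Two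

open Finset
open Pool.Agent.Lib.MP_21a058_co.P
open Pool.Agent.Lib.MP_21a058_co.Every

variable {V E : Type} [Fintype V] [DecidableEq V] [Fintype E] [DecidableEq E] (a b : E → V)

/-- the counting statement: at a vertex with a fractional coordinate some kept cut has at most five
fractional edges -/
def Count (s : ℕ) : Prop :=
  ∀ (L : Finset (Finset V)), (∀ Y ∈ L, Y.Nonempty) →
    (∀ X ∈ L, ∀ Y ∈ L, X ⊆ Y ∨ Y ⊆ X ∨ Disjoint X Y) →
    ∀ x : E → ℚ, (∀ e, 0 ≤ x e ∧ x e ≤ 1) →
    (∀ S : Finset E, ∑ e ∈ S, x e ≤ (s : ℚ) * rk a b S) →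
    (s : ℚ) * ((Fintype.card V : ℚ) - 1) ≤ ∑ e, x e →
    (∀ Y ∈ L, (s : ℚ) * ((Y.card : ℚ) - 1) ≤ ∑ e ∈ ins a b Y, x e) →
    ∀ K : Finset (Finset V), K ⊆ L → ∀ up : Finset V → ℤ,
    (∀ Y ∈ K, ∑ e ∈ cut a b Y, x e ≤ (up Y : ℚ)) →
    (∀ y : E → ℚ, (∀ e, x e = 0 ∨ x e = 1 → y e = 0) →
      (∀ S : Finset E, ∑ e ∈ S, x e = (s : ℚ) * rk a b S → ∑ e ∈ S, y e = 0) →
      (∀ Y ∈ K, ∑ e ∈ cut a b Y, x e = (up Y : ℚ) → ∑ e ∈ cut a b Y, y e = 0) → y = 0) →
    (∃ e, x e ≠ 0 ∧ x e ≠ 1) →
    ∃ Y ∈ K, ((cut a b Y).filter fun e => x e ≠ 0 ∧ x e ≠ 1).card ≤ 5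

/-- a part of a tree is independent -/
theorem tree_indep {T : Finset E} (hT : Tree a b T) {F : Finset E} (hF : F ⊆ T) :
    F.card ≤ rk a b F := by
  have h1 : Fintype.card V ≤ rk a b T + 1 := by
    have := card_le_of_conn a b hT.1
    rwa [card_univ] at this
  have h2 := hT.2
  have h3 : rk a b T ≤ rk a b F + (T \ F).card := by
    apply rk_le_add_card
    rw [union_sdiff_of_subset hF]
  have h4 : (T \ F).card + F.card = T.card := card_sdiff_add_card_eq_card hF
  omega

theorem card_un_inter {n : ℕ} {T : Fin n → Finset E} (hd : ∀ i j, i ≠ j → Disjoint (T i) (T j))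
    (S : Finset E) : (un T ∩ S).card = ∑ i, (T i ∩ S).card := by
  unfold un
  rw [biUnion_inter, card_biUnion]
  intro i _ j _ hij
  exact Disjoint.mono inter_subset_left inter_subset_left (hd i j hij)

theorem rk_le_pred (hV : Nonempty V) (J : Finset E) : rk a b J + 1 ≤ Fintype.card V := by
  have h2 := rk_add_image_le a b (F := J) (fun _ => ()) (fun _ _ => rfl)
  have h3 : 0 < ((univ : Finset V).image fun _ => ()).card := by
    rw [card_pos]
    exact univ_nonempty.image _
  omega

/-- the sum of a constant over a set -/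
theorem sum_start (H S : Finset E) (q : ℚ) :
    ∑ e ∈ S, (if e ∈ H then q else 0) = ((H ∩ S).card : ℚ) * q := by
  rw [← sum_filter, sum_const, nsmul_eq_mul]
  have h1 : S.filter (fun e => e ∈ H) = H ∩ S := by
    ext e
    rw [mem_filter, mem_inter, and_comm]
  rw [h1]

/-- **two-sided rounding for one laminar family** -/
theorem sel2_of {s t : ℕ} (hct : Count a b s) (hst : s ≤ t) (ht : 0 < t) (T : Fin t → Finset E) (hT : Trees a b T)
    (L : Finset (Finset V)) (hne : ∀ Y ∈ L, Y.Nonempty)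
    (hlam : ∀ X ∈ L, ∀ Y ∈ L, X ⊆ Y ∨ Y ⊆ X ∨ Disjoint X Y)
    (hL : ∀ Y ∈ L, ∀ i, (T i ∩ ins a b Y).card + 1 = Y.card) :
    ∃ C : Fin s → Finset E, Trees a b C ∧ un C ⊆ un T ∧
      ∀ Y ∈ L, t * (un C ∩ cut a b Y).card ≤ s * (un T ∩ cut a b Y).card + 6 * t := by
  classical
  have hV : Nonempty V := by
    have := (hT.1 ⟨0, ht⟩).2
    exact Fintype.card_pos_iff.1 (by omega)
  have hn : 0 < Fintype.card V := Fintype.card_pos
  have htq : (0 : ℚ) < t := by exact_mod_cast ht
  have htq0 : (t : ℚ) ≠ 0 := ne_of_gt htq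
  -- the start
  let x0 : E → ℚ := fun e => if e ∈ un T then (s : ℚ) / t else 0
  have hx0S : ∀ S : Finset E, ∑ e ∈ S, x0 e = ((un T ∩ S).card : ℚ) * ((s : ℚ) / t) :=
    fun S => sum_start (un T) S _
  let up : Finset V → ℤ := fun Y => ⌈((un T ∩ cut a b Y).card : ℚ) * ((s : ℚ) / t)⌉
  -- the rows
  let A : Finset E ⊕ ({Y // Y ∈ L} ⊕ Unit) → E → ℚ := fun i e => match i with
    | .inl S => if e ∈ S then 1 else 0
    | .inr (.inl Y) => -(if e ∈ ins a b Y.1 then 1 else 0)
    | .inr (.inr _) => -1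
  let B : Finset E ⊕ ({Y // Y ∈ L} ⊕ Unit) → ℚ := fun i => match i with
    | .inl S => (s : ℚ) * rk a b S
    | .inr (.inl Y) => -((s : ℚ) * ((Y.1.card : ℚ) - 1))
    | .inr (.inr _) => -((s : ℚ) * ((Fintype.card V : ℚ) - 1))
  have hA1 : ∀ (S : Finset E) (x : E → ℚ), ∑ e, A (.inl S) e * x e = ∑ e ∈ S, x e :=
    fun S x => sum_indic S x
  have hA2 : ∀ (Y : {Y // Y ∈ L}) (x : E → ℚ),
      ∑ e, A (.inr (.inl Y)) e * x e = -∑ e ∈ ins a b Y.1, x e := by
    intro Y x
    rw [← sum_indic (ins a b Y.1) x, ← sum_neg_distrib]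
    exact sum_congr rfl fun e _ => neg_mul _ _
  have hA3 : ∀ (x : E → ℚ), ∑ e, A (.inr (.inr ())) e * x e = -∑ e, x e := by
    intro x
    rw [← sum_neg_distrib]
    exact sum_congr rfl fun e _ => neg_one_mul _
  have hcount : ∀ (K : Finset {Y // Y ∈ L}) (x : E → ℚ), (∀ e, 0 ≤ x e ∧ x e ≤ 1) →
      (∀ i, ∑ e, A i e * x e ≤ B i) →
      (∀ W ∈ K, ∑ e ∈ cut a b W.1, x e ≤ ((up W.1 : ℤ) : ℚ)) →
      (∀ y : E → ℚ, (∀ e, x e = 0 ∨ x e = 1 → y e = 0) →
        (∀ i, ∑ e, A i e * x e = B i → ∑ e, A i e * y e = 0) →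
        (∀ W ∈ K, ∑ e ∈ cut a b W.1, x e = ((up W.1 : ℤ) : ℚ) →
          ∑ e ∈ cut a b W.1, y e = 0) → y = 0) →
      (∃ e, x e ≠ 0 ∧ x e ≠ 1) →
      ∃ W ∈ K, ((cut a b W.1).filter fun e => x e ≠ 0 ∧ x e ≠ 1).card ≤ 5 := by
    intro K x h01 hrows hKx hv hfr
    have g1 : ∀ S : Finset E, ∑ e ∈ S, x e ≤ (s : ℚ) * rk a b S := fun S => by
      have := hrows (.inl S)
      rwa [hA1] at this
    have g2 : ∀ Y ∈ L, (s : ℚ) * ((Y.card : ℚ) - 1) ≤ ∑ e ∈ ins a b Y, x e := fun Y hY => by
      have h1 := hrows (.inr (.inl ⟨Y, hY⟩))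
      rw [hA2] at h1
      exact neg_le_neg_iff.1 h1
    have g3 : (s : ℚ) * ((Fintype.card V : ℚ) - 1) ≤ ∑ e, x e := by
      have h1 := hrows (.inr (.inr ()))
      rw [hA3] at h1
      exact neg_le_neg_iff.1 h1
    obtain ⟨Y, hY, hc⟩ := hct L hne hlam x h01 g1 g3 g2
      (K.map (Function.Embedding.subtype _)) (by
        intro Y hY
        rw [mem_map] at hY
        obtain ⟨Y', -, rfl⟩ := hY
        exact Y'.2) up (by
        intro Y hY
        rw [mem_map] at hY
        obtain ⟨Y', hY', rfl⟩ := hY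
        exact hKx Y' hY') (by
        intro y hy1 hy2 hy3
        apply hv y hy1
        · intro i hi
          match i with
          | .inl S =>
            rw [hA1] at hi ⊢
            exact hy2 S hi
          | .inr (.inl Y) =>
            rw [hA2] at hi ⊢
            rw [neg_eq_zero]
            apply hy2
            have h1 : ∑ e ∈ ins a b Y.1, x e = (s : ℚ) * ((Y.1.card : ℚ) - 1) := neg_inj.1 hi
            apply le_antisymm (g1 _)
            rw [h1]
            apply mul_le_mul_of_nonneg_left _ (Nat.cast_nonneg s)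
            -- the rank of the inside
            have h2 : rk a b (ins a b Y.1) + 1 ≤ Y.1.card := by
              obtain ⟨x1, hx1⟩ := hne Y.1 Y.2
              have h5 : rk a b (ins a b Y.1) +
                  (univ.image (fun v => if v ∈ Y.1 then x1 else v)).card ≤ Fintype.card V := by
                apply rk_add_image_le
                intro e he
                obtain ⟨h6, h7⟩ := (mem_ins a b).1 he
                simp only [h6, h7, if_true]
              have h6 : (insert x1 Y.1ᶜ).card ≤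
                  (univ.image (fun v => if v ∈ Y.1 then x1 else v)).card := by
                apply card_le_card
                intro v hv
                rw [mem_image]
                rcases mem_insert.1 hv with rfl | hv
                · exact ⟨v, mem_univ _, by simp [hx1]⟩
                · exact ⟨v, mem_univ _, by simp [mem_compl.1 hv]⟩
              rw [card_insert_of_notMem (fun h => (mem_compl.1 h) hx1), card_compl] at h6
              have h7 : Y.1.card ≤ Fintype.card V := card_le_univ _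
              omega
            have h3 : ((rk a b (ins a b Y.1) : ℕ) : ℚ) + 1 ≤ (Y.1.card : ℚ) := by
              exact_mod_cast h2
            linarith
          | .inr (.inr ()) =>
            rw [hA3] at hi ⊢
            rw [neg_eq_zero]
            apply hy2
            have h1 : ∑ e, x e = (s : ℚ) * ((Fintype.card V : ℚ) - 1) := neg_inj.1 hi
            apply le_antisymm (g1 _)
            rw [h1]
            apply mul_le_mul_of_nonneg_left _ (Nat.cast_nonneg s)
            have h2 := rk_le_pred a b hV univ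
            have h3 : ((rk a b univ : ℕ) : ℚ) + 1 ≤ (Fintype.card V : ℚ) := by
              exact_mod_cast h2
            linarith
        · intro W hW hWx
          exact hy3 W.1 (mem_map_of_mem _ hW) hWx) hfr
    rw [mem_map] at hY
    obtain ⟨Y', hY', rfl⟩ := hY
    exact ⟨Y', hY', hc⟩
  have hx001 : ∀ e, 0 ≤ x0 e ∧ x0 e ≤ 1 := by
    intro e
    by_cases he : e ∈ un T
    · have h1 : x0 e = (s : ℚ) / t := if_pos he
      rw [h1]
      refine ⟨div_nonneg (Nat.cast_nonneg _) htq.le, ?_⟩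
      rw [div_le_one htq]
      exact_mod_cast hst
    · have h1 : x0 e = 0 := if_neg he
      rw [h1]
      exact ⟨le_refl 0, zero_le_one⟩
  have hrow0 : ∀ i, ∑ e, A i e * x0 e ≤ B i := by
    intro i
    match i with
    | .inl S =>
      rw [hA1, hx0S, card_un_inter hT.2]
      have h1 : ∑ i, (T i ∩ S).card ≤ t * rk a b S := by
        have h2 : ∑ i, (T i ∩ S).card ≤ ∑ _i : Fin t, rk a b S :=
          sum_le_sum fun i _ => (tree_indep a b (hT.1 i) inter_subset_left).trans
            (rk_mono a b inter_subset_right)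
        rwa [sum_const, card_univ, Fintype.card_fin, smul_eq_mul] at h2
      have h2 : ((∑ i, (T i ∩ S).card : ℕ) : ℚ) ≤ (t : ℚ) * rk a b S := by exact_mod_cast h1
      have h3 : ((∑ i, (T i ∩ S).card : ℕ) : ℚ) * ((s : ℚ) / t) ≤
          (t : ℚ) * rk a b S * ((s : ℚ) / t) :=
        mul_le_mul_of_nonneg_right h2 (div_nonneg (Nat.cast_nonneg _) htq.le)
      refine h3.trans (le_of_eq ?_)
      change (t : ℚ) * rk a b S * ((s : ℚ) / t) = (s : ℚ) * rk a b S
      field_simp
    | .inr (.inl Y) =>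
      rw [hA2, hx0S, card_un_inter hT.2]
      have h1 : ((∑ i, (T i ∩ ins a b Y.1).card : ℕ) : ℚ) = (t : ℚ) * ((Y.1.card : ℚ) - 1) := by
        push_cast
        rw [sum_congr rfl (g := fun _ => (Y.1.card : ℚ) - 1) (fun i _ => by
          have h2 := hL Y.1 Y.2 i
          have h3 : ((T i ∩ ins a b Y.1).card : ℚ) + 1 = (Y.1.card : ℚ) := by exact_mod_cast h2
          linarith), sum_const, card_univ, Fintype.card_fin, nsmul_eq_mul]
      rw [h1]
      apply le_of_eq
      change -((t : ℚ) * ((Y.1.card : ℚ) - 1) * ((s : ℚ) / t)) = -((s : ℚ) * ((Y.1.card : ℚ) - 1))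
      field_simp
    | .inr (.inr ()) =>
      rw [hA3, hx0S, card_un_inter hT.2]
      have h1 : ((∑ i, (T i ∩ univ).card : ℕ) : ℚ) = (t : ℚ) * ((Fintype.card V : ℚ) - 1) := by
        push_cast
        rw [sum_congr rfl (g := fun _ => (Fintype.card V : ℚ) - 1) (fun i _ => by
          have h2 := (hT.1 i).2
          rw [inter_univ]
          have h3 : ((T i).card : ℚ) + 1 = (Fintype.card V : ℚ) := by exact_mod_cast h2
          linarith), sum_const, card_univ, Fintype.card_fin, nsmul_eq_mul]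
      rw [h1]
      apply le_of_eq
      change -((t : ℚ) * ((Fintype.card V : ℚ) - 1) * ((s : ℚ) / t)) =
        -((s : ℚ) * ((Fintype.card V : ℚ) - 1))
      field_simp
  obtain ⟨x, hx01, hxr, hxk, hxc⟩ := round_loop A B (fun W : {Y // Y ∈ L} => cut a b W.1)
    (fun W => ((up W.1 : ℤ) : ℚ)) 5 hcount x0 hx001 hrow0 univ (by
      intro W _
      rw [hx0S]
      exact Int.le_ceil _)
  -- the integral set
  let J : Finset E := univ.filter fun e => x e = 1
  have hmJ : ∀ e, e ∈ J ↔ x e = 1 := fun e => by simp [J]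
  have hxJ : ∀ S : Finset E, ∑ e ∈ S, x e = ((J ∩ S).card : ℚ) := by
    intro S
    have h1 := sum_start J S 1
    rw [mul_one] at h1
    rw [← h1]
    apply sum_congr rfl
    intro e _
    by_cases he : x e = 1
    · rw [if_pos ((hmJ e).2 he), he]
    · rw [if_neg (fun h => he ((hmJ e).1 h))]
      exact (hx01 e).resolve_right he
  have hJT : J ⊆ un T := by
    intro e he
    by_contra hcon
    have h1 : x0 e = 0 := if_neg hcon
    have h2 := hxk e (Or.inl h1)
    rw [h1, (hmJ e).1 he] at h2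
    exact one_ne_zero h2
  have hJS : ∀ S : Finset E, (J ∩ S).card ≤ s * rk a b S := by
    intro S
    have h1 := hxr (.inl S)
    rw [hA1, hxJ] at h1
    have h2 : ((J ∩ S).card : ℚ) ≤ (s : ℚ) * rk a b S := h1
    exact_mod_cast h2
  have hJc : s * (Fintype.card V - 1) ≤ J.card := by
    have h1 := hxr (.inr (.inr ()))
    rw [hA3, hxJ, inter_univ] at h1
    have h2 : (s : ℚ) * ((Fintype.card V : ℚ) - 1) ≤ (J.card : ℚ) := neg_le_neg_iff.1 h1
    have h3 : ((Fintype.card V - 1 : ℕ) : ℚ) = (Fintype.card V : ℚ) - 1 := by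
      rw [Nat.cast_sub hn, Nat.cast_one]
    rw [← h3] at h2
    exact_mod_cast h2
  obtain ⟨C, hC1, hC2, hC3⟩ := MP21a058.pack_rk (t := s) (rk_rk a b) J (Fintype.card V - 1)
    (fun J' _ => by
      have := rk_le_pred a b hV J'
      omega) (fun J' hJ' => by
      have h1 := hJS J'
      rw [inter_eq_right.2 hJ'] at h1
      have h2 : (J \ J').card + J'.card = J.card := card_sdiff_add_card_eq_card hJ'
      omega)
  have hCJ : un C ⊆ J := by
    intro e he
    obtain ⟨i, hi⟩ := mem_un.1 he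
    exact hC1 i hi
  refine ⟨C, ⟨fun i => ⟨?_, ?_⟩, hC2⟩, hCJ.trans hJT, ?_⟩
  · apply conn_of_card_le a b
    · intro e _
      rw [mem_ins]
      exact ⟨mem_univ _, mem_univ _⟩
    · rw [card_univ, (hC3 i).2]
      omega
  · rw [(hC3 i).1]
    omega
  · intro Y hY
    have h1 := hxc ⟨Y, hY⟩ (mem_univ _)
    rw [hxJ] at h1
    have h2 : (up Y : ℚ) < ((un T ∩ cut a b Y).card : ℚ) * ((s : ℚ) / t) + 1 :=
      Int.ceil_lt_add_one _
    have h3 : (un C ∩ cut a b Y).card ≤ (J ∩ cut a b Y).card :=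
      card_le_card (inter_subset_inter_right hCJ)
    have h4 : ((un C ∩ cut a b Y).card : ℚ) ≤ ((J ∩ cut a b Y).card : ℚ) := by exact_mod_cast h3
    have h5 : ((J ∩ cut a b Y).card : ℚ) ≤ (up Y : ℚ) + 5 := by exact_mod_cast h1
    have h6 : ((un C ∩ cut a b Y).card : ℚ) ≤ ((un T ∩ cut a b Y).card : ℚ) * ((s : ℚ) / t) + 6 := by
      linarith
    have h7 : (t : ℚ) * ((un C ∩ cut a b Y).card : ℚ) ≤
        (t : ℚ) * (((un T ∩ cut a b Y).card : ℚ) * ((s : ℚ) / t) + 6) :=
      mul_le_mul_of_nonneg_left h6 htq.le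
    have h8 : (t : ℚ) * (((un T ∩ cut a b Y).card : ℚ) * ((s : ℚ) / t) + 6) =
        (s : ℚ) * ((un T ∩ cut a b Y).card : ℚ) + 6 * t := by
      field_simp
    rw [h8] at h7
    exact_mod_cast h7

end Pool.Agent.Lib.MP_21a058_co.Two
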