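import Mathlib

/-!
# A feasible point with as many tight rows as possible

For a finite system of linear inequalities over the rationals with `0 ≤ x e ≤ 1` for every coordinate, a
feasible point can be moved, all tight rows and all coordinates with value `0` or `1` kept, to a point at
which no non-zero vector supported on the fractional coordinates is killed by all tight rows.
-/

namespace Pool.Agent.Lib.MP_21a058_co.Two

open Finset

theorem sum_move {E : Type*} [Fintype E] (a x y : E → ℚ) (c : ℚ) :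
    (∑ e, a e * (x e + c * y e)) = (∑ e, a e * x e) + c * ∑ e, a e * y e := by
  rw [mul_sum, ← sum_add_distrib]
  exact sum_congr rfl fun e _ => by ring

theorem vertex_aux {E κ : Type*} [Fintype E] [Fintype κ] (A : κ → E → ℚ) (b : κ → ℚ)
    (hbd : ∀ y : E → ℚ, y ≠ 0 → ∃ i, 0 < ∑ e, A i e * y e) :
    ∀ (n : ℕ) (x0 : E → ℚ), (∀ i, ∑ e, A i e * x0 e ≤ b i) →
      (univ.filter fun i => ∑ e, A i e * x0 e ≠ b i).card ≤ n →
      ∃ x : E → ℚ, (∀ i, ∑ e, A i e * x e ≤ b i) ∧
        (∀ i, ∑ e, A i e * x0 e = b i → ∑ e, A i e * x e = b i) ∧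
        ∀ y : E → ℚ, (∀ i, ∑ e, A i e * x e = b i → ∑ e, A i e * y e = 0) → y = 0 := by
  classical
  intro n
  induction n with
  | zero =>
    intro x0 h0 hn
    refine ⟨x0, h0, fun _ h => h, fun y hy => ?_⟩
    by_contra hy0
    obtain ⟨i, hi⟩ := hbd y hy0
    have ht : ∑ e, A i e * x0 e = b i := by
      by_contra hne
      have h1 : i ∈ univ.filter fun i => ∑ e, A i e * x0 e ≠ b i :=
        mem_filter.2 ⟨mem_univ i, hne⟩
      have h2 := card_pos.2 ⟨i, h1⟩
      omega
    have h3 := hy i ht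
    rw [h3] at hi
    exact lt_irrefl _ hi
  | succ n ih =>
    intro x0 h0 hn
    by_cases hv : ∀ y : E → ℚ, (∀ i, ∑ e, A i e * x0 e = b i → ∑ e, A i e * y e = 0) → y = 0
    · exact ⟨x0, h0, fun _ h => h, hv⟩
    · push Not at hv
      obtain ⟨y, hy, hy0⟩ := hv
      obtain ⟨i1, hi1⟩ := hbd y hy0
      have hne : (univ.filter fun i => 0 < ∑ e, A i e * y e).Nonempty :=
        ⟨i1, mem_filter.2 ⟨mem_univ _, hi1⟩⟩
      obtain ⟨i0, hi0, hmin⟩ := exists_min_image (univ.filter fun i => 0 < ∑ e, A i e * y e)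
        (fun i => (b i - ∑ e, A i e * x0 e) / ∑ e, A i e * y e) hne
      have hpos : 0 < ∑ e, A i0 e * y e := (mem_filter.1 hi0).2
      set c : ℚ := (b i0 - ∑ e, A i0 e * x0 e) / ∑ e, A i0 e * y e with hc
      have hc0 : 0 ≤ c := div_nonneg (by linarith [h0 i0]) hpos.le
      have hfeas : ∀ i, ∑ e, A i e * (x0 e + c * y e) ≤ b i := by
        intro i
        rw [sum_move]
        by_cases hi : 0 < ∑ e, A i e * y e
        · have h1 := hmin i (mem_filter.2 ⟨mem_univ _, hi⟩)
          have h2 : c * ∑ e, A i e * y e ≤ b i - ∑ e, A i e * x0 e := by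
            have h3 : c ≤ (b i - ∑ e, A i e * x0 e) / ∑ e, A i e * y e := h1
            exact (le_div_iff₀ hi).1 h3
          linarith
        · have h1 : c * ∑ e, A i e * y e ≤ 0 :=
            mul_nonpos_of_nonneg_of_nonpos hc0 (not_lt.1 hi)
          linarith [h0 i]
      have hkeep : ∀ i, ∑ e, A i e * x0 e = b i → ∑ e, A i e * (x0 e + c * y e) = b i := by
        intro i hi
        rw [sum_move, hy i hi, hi]
        ring
      have hnew : ∑ e, A i0 e * (x0 e + c * y e) = b i0 := by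
        rw [sum_move, hc, div_mul_cancel₀ _ hpos.ne']
        ring
      have hold : ∑ e, A i0 e * x0 e ≠ b i0 := by
        intro h
        have h1 := hy i0 h
        rw [h1] at hpos
        exact lt_irrefl _ hpos
      have hcard : (univ.filter fun i => ∑ e, A i e * (x0 e + c * y e) ≠ b i).card ≤ n := by
        have hss : (univ.filter fun i => ∑ e, A i e * (x0 e + c * y e) ≠ b i) ⊂
            univ.filter fun i => ∑ e, A i e * x0 e ≠ b i := by
          refine (ssubset_iff_of_subset ?_).2 ⟨i0, mem_filter.2 ⟨mem_univ _, hold⟩, ?_⟩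
          · intro i hi
            exact mem_filter.2 ⟨mem_univ _, fun h => (mem_filter.1 hi).2 (hkeep i h)⟩
          · intro h
            exact (mem_filter.1 h).2 hnew
        have := card_lt_card hss
        omega
      obtain ⟨x, hx1, hx2, hx3⟩ := ih (fun e => x0 e + c * y e) hfeas hcard
      exact ⟨x, hx1, fun i hi => hx2 i (hkeep i hi), hx3⟩

/-- the vertex lemma -/
theorem exists_vertex {E ι : Type*} [Fintype E] [DecidableEq E] [Finite ι] (A : ι → E → ℚ)
    (b : ι → ℚ) (x0 : E → ℚ) (h01 : ∀ e, 0 ≤ x0 e ∧ x0 e ≤ 1) (h0 : ∀ i, ∑ e, A i e * x0 e ≤ b i) :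
    ∃ x : E → ℚ, (∀ e, 0 ≤ x e ∧ x e ≤ 1) ∧ (∀ i, ∑ e, A i e * x e ≤ b i) ∧
      (∀ i, ∑ e, A i e * x0 e = b i → ∑ e, A i e * x e = b i) ∧
      (∀ e, x0 e = 0 ∨ x0 e = 1 → x e = x0 e) ∧
      ∀ y : E → ℚ, (∀ e, x e = 0 ∨ x e = 1 → y e = 0) →
        (∀ i, ∑ e, A i e * x e = b i → ∑ e, A i e * y e = 0) → y = 0 := by
  classical
  have _inst : Fintype ι := Fintype.ofFinite ι
  let A' : ι ⊕ (E ⊕ E) → E → ℚ := fun i e => match i with
    | .inl i => A i e
    | .inr (.inl f) => if e = f then 1 else 0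
    | .inr (.inr f) => if e = f then -1 else 0
  let b' : ι ⊕ (E ⊕ E) → ℚ := fun i => match i with
    | .inl i => b i
    | .inr (.inl _) => 1
    | .inr (.inr _) => 0
  have hA1 : ∀ (i : ι) (x : E → ℚ), ∑ e, A' (.inl i) e * x e = ∑ e, A i e * x e := fun _ _ => rfl
  have hA2 : ∀ (f : E) (x : E → ℚ), ∑ e, A' (.inr (.inl f)) e * x e = x f := by
    intro f x
    change ∑ e, (if e = f then (1 : ℚ) else 0) * x e = x f
    simp
  have hA3 : ∀ (f : E) (x : E → ℚ), ∑ e, A' (.inr (.inr f)) e * x e = - x f := by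
    intro f x
    change ∑ e, (if e = f then (-1 : ℚ) else 0) * x e = - x f
    simp
  have hbd : ∀ y : E → ℚ, y ≠ 0 → ∃ i, 0 < ∑ e, A' i e * y e := by
    intro y hy
    obtain ⟨f, hf⟩ : ∃ f, y f ≠ 0 := by
      by_contra h
      push Not at h
      exact hy (funext h)
    rcases lt_or_gt_of_ne hf with h | h
    · exact ⟨.inr (.inr f), by rw [hA3]; linarith⟩
    · exact ⟨.inr (.inl f), by rw [hA2]; exact h⟩
  have hf0 : ∀ i, ∑ e, A' i e * x0 e ≤ b' i := by
    rintro (i | f | f)
    · exact h0 i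
    · rw [hA2]; exact (h01 f).2
    · rw [hA3]
      change - x0 f ≤ 0
      linarith [(h01 f).1]
  obtain ⟨x, hx1, hx2, hx3⟩ := vertex_aux A' b' hbd _ x0 hf0 le_rfl
  have hx01 : ∀ e, 0 ≤ x e ∧ x e ≤ 1 := by
    intro e
    constructor
    · have h := hx1 (.inr (.inr e))
      rw [hA3] at h
      change - x e ≤ 0 at h
      linarith
    · have h := hx1 (.inr (.inl e))
      rw [hA2] at h
      exact h
  refine ⟨x, hx01, fun i => hx1 (.inl i), fun i hi => hx2 (.inl i) hi, ?_, ?_⟩
  · intro e he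
    rcases he with he | he
    · have h := hx2 (.inr (.inr e)) (by rw [hA3, he]; exact neg_zero)
      rw [hA3] at h
      change - x e = 0 at h
      rw [he]
      linarith
    · have h := hx2 (.inr (.inl e)) (by rw [hA2, he])
      rw [hA2] at h
      change x e = 1 at h
      rw [he, h]
  · intro y hy1 hy2
    refine hx3 y ?_
    rintro (i | f | f) h
    · exact hy2 i h
    · rw [hA2] at h ⊢
      exact hy1 f (Or.inr h)
    · rw [hA3] at h ⊢
      have h' : - x f = 0 := h
      rw [hy1 f (Or.inl (by linarith)), neg_zero]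

end Pool.Agent.Lib.MP_21a058_co.Two
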