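import Pool.Agent.Lib.MP_21a058_co.Two.Sel2
import Pool.Agent.Lib.MP_21a058_co.Swap.Extr

/-! The count with the two-sided rounding: `s` of the `t` trees which take at most their proportional
share of every weak cut, up to an additive constant. -/

namespace Pool.Agent.Lib.MP_21a058_co.Two

open Finset
open Pool.Agent.Lib.MP_21a058_co.P Pool.Agent.Lib.MP_21a058_co.Every
open Pool.Agent.Lib.MP_21a058_co.Swap

/-- the numbers of the count -/
theorem cnt2_num {s t u l dR dT dC : ℕ} (hst : s ≤ t) (ht : 0 < t)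
    (hround : t * dC ≤ s * dT + 6 * t) (hcut : 2 * (t + u) ≤ dR + dT) (hu : u ≤ dR)
    (hnum : t * (l + 6) + 2 * s * (t + u) ≤ s * u + 2 * t * (t + u)) :
    l + dC ≤ dR + dT := by
  by_contra hcon
  push Not at hcon
  obtain ⟨t', rfl⟩ : ∃ t', t = t' + 1 := ⟨t - 1, by omega⟩
  zify at *
  have e2 : (s : ℤ) * u ≤ s * dR := mul_le_mul_of_nonneg_left hu (by positivity)
  have e3 : (t' + 1 : ℤ) * (dR + dT) + (t' + 1) ≤ (t' + 1) * (l + dC) := by
    have h : (dR : ℤ) + dT + 1 ≤ l + dC := by linarith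
    have := mul_le_mul_of_nonneg_left h (show (0 : ℤ) ≤ t' + 1 by positivity)
    linarith
  have e4 : ((t' + 1 : ℤ) - s) * (2 * (t' + 1 + u) - dR) ≤ ((t' + 1 : ℤ) - s) * dT :=
    mul_le_mul_of_nonneg_left (by linarith) (by linarith)
  nlinarith [e2, e3, e4, hround, hnum]

variable {V E : Type} [Fintype V] [DecidableEq V] [Fintype E] [DecidableEq E] (a b : E → V)

theorem cnt2_compl (Y : Finset V) : cut a b Yᶜ = cut a b Y := by
  ext e
  simp only [mem_cut, mem_compl]
  tauto

/-- `s` disjoint spanning trees whose complement has all cuts at least `l` -/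
theorem main2 (hV : Nonempty V) {s t u l : ℕ} (hst : s ≤ t) (ht : 0 < t)
    (hl : 2 * l ≤ 3 * u)
    (hnum : t * (l + 6) + 2 * s * (t + u) ≤ s * u + 2 * t * (t + u))
    (hcut : ∀ Y : Finset V, Y.Nonempty → Y ≠ univ → 2 * (t + u) ≤ (cut a b Y).card) :
    ∃ A : Fin s → Finset E, (∀ i j, i ≠ j → Disjoint (A i) (A j)) ∧
      (∀ i, ConnOn a b (A i) univ) ∧
      ∀ Y : Finset V, Y.Nonempty → Y ≠ univ → l ≤ (cut a b Y \ univ.biUnion A).card := by
  classical
  obtain ⟨r⟩ := id hV
  obtain ⟨T, hT, hu, hlam, hconn⟩ := extremal (a := a) (b := b) hV r (by omega : 0 < t + u) hcut hl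
  obtain ⟨C, hC, hCT, hround⟩ := sel2 a b hst ht T hT
    (univ.filter fun Y => Y.Nonempty ∧ r ∉ Y ∧ (cut a b Y \ un T).card < l)
    (by intro X hX; exact (mem_filter.1 hX).2.1)
    (by
      intro X hX Y hY
      simp only [mem_filter, mem_univ, true_and] at hX hY
      exact hlam X Y hX.2.1 hY.2.1 hX.2.2 hY.2.2)
    (by
      intro Y hY
      simp only [mem_filter, mem_univ, true_and] at hY
      exact hconn Y hY.1 hY.2.1 hY.2.2)
  refine ⟨C, hC.2, fun i => (hC.1 i).1, ?_⟩
  have hmono : ∀ X : Finset V, (cut a b X \ un T).card ≤ (cut a b X \ un C).card :=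
    fun X => card_le_card (sdiff_subset_sdiff (Subset.refl _) hCT)
  have key : ∀ Y : Finset V, Y.Nonempty → r ∉ Y → l ≤ (cut a b Y \ un C).card := by
    intro X hX hr
    have hXu : X ≠ univ := fun h => hr (h ▸ mem_univ r)
    by_cases hq : (cut a b X \ un T).card < l
    · have hXL : X ∈ univ.filter fun Y => Y.Nonempty ∧ r ∉ Y ∧
          (cut a b Y \ un T).card < l := by
        simp [hX, hr, hq]
      have hr1 := hround X hXL
      have hsum : ∀ F : Finset E, (cut a b X \ F).card + (F ∩ cut a b X).card =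
          (cut a b X).card := by
        intro F
        rw [inter_comm]
        exact card_sdiff_add_card_inter _ _
      have hcX := hcut X hX hXu
      rw [← hsum (un T)] at hcX
      have k1 := cnt2_num hst ht hr1 hcX (hu X hX hXu) hnum
      have hs1 := hsum (un T)
      have hs2 := hsum (un C)
      omega
    · exact (not_lt.1 hq).trans (hmono X)
  intro Y hY hYu
  change l ≤ (cut a b Y \ un C).card
  by_cases hr : r ∈ Y
  · rw [← cnt2_compl]
    apply key
    · rw [nonempty_iff_ne_empty]
      intro h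
      exact hYu (compl_eq_empty_iff Y |>.1 h)
    · simpa using hr
  · exact key Y hY hr

end Pool.Agent.Lib.MP_21a058_co.Two
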