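import Pool.Agent.Lib.MP_21a058_co.Two.Loop2
import Pool.Agent.Lib.MP_21a058_co.Two.Fin
import Pool.Agent.Lib.MP_21a058_co.Duo.Cut
import Pool.Agent.Lib.MP_21a058_co.Swap.Cnt3

/-!
MP_21a058_co: **the rounding theorem with trees on both sides.** The edges of `t` disjoint spanning trees,
all connected on every member of a laminar family, are split into two parts, one with `s` and one with `q`
disjoint spanning trees, `s + 7 + (q + 7) = t`, such that the first part has at most its proportional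
share of every cut of the family, up to an additive constant.
-/

set_option autoImplicit false
set_option linter.unusedSectionVars false

namespace Pool.Agent.Lib.MP_21a058_co.Two

open Finset MP21a058
open Pool.Agent.Lib.MP_21a058_co.P
open Pool.Agent.Lib.MP_21a058_co.Every
open Pool.Agent.Lib.MP_21a058_co.Duo

variable {V E : Type} [Fintype V] [DecidableEq V] [Fintype E] [DecidableEq E] (a b : E → V)

/-- the start of one side -/
theorem start_side {s t : ℕ} (hst : s ≤ t) (ht : 0 < t) {T : Fin t → Finset E}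
    (hT : Trees a b T) {K : Finset (Finset V)} (hne : ∀ Y ∈ K, Y.Nonempty)
    (hK : ∀ Y ∈ K, ∀ i, (T i ∩ ins a b Y).card + 1 = Y.card) {z : E → ℚ}
    (hz : ∀ e ∈ un T, z e = (s : ℚ) / t) : SideSt a b K s (un T) (rk a b) z := by
  classical
  have hV : Nonempty V := by
    have := (hT.1 ⟨0, ht⟩).2
    exact Fintype.card_pos_iff.1 (by omega)
  have htq : (0 : ℚ) < t := by exact_mod_cast ht
  have hq0 : (0 : ℚ) ≤ (s : ℚ) / t := div_nonneg (Nat.cast_nonneg _) htq.le
  have hq1 : (s : ℚ) / t ≤ 1 := by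
    rw [div_le_one htq]
    exact_mod_cast hst
  have hsum : ∀ S : Finset E, ∑ e ∈ S, res (un T) z e =
      ((∑ i, (T i ∩ S).card : ℕ) : ℚ) * ((s : ℚ) / t) := by
    intro S
    rw [sum_res, ← card_un_inter hT.2 S, inter_comm (un T) S,
      sum_congr rfl (fun e he => hz e (mem_inter.1 he).2), sum_const, nsmul_eq_mul]
  have hconst : ∀ n : ℕ, ((t * n : ℕ) : ℚ) * ((s : ℚ) / t) = (s : ℚ) * n := by
    intro n
    push_cast
    field_simp
  have hfull : rk a b univ + 1 = Fintype.card V := by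
    apply le_antisymm (rk_le_pred a b hV univ)
    have h1 := card_le_of_conn a b (hT.1 ⟨0, ht⟩).1
    rw [card_univ] at h1
    have h2 := rk_mono a b (subset_univ (T ⟨0, ht⟩))
    omega
  refine ⟨⟨rk_rk a b, ?_, ?_, ?_, ?_⟩, ?_, ?_⟩
  · intro e
    by_cases he : e ∈ un T
    · rw [res_mem he, hz e he]
      exact hq0
    · rw [res_not he]
  · intro e
    by_cases he : e ∈ un T
    · rw [res_mem he, hz e he]
      exact hq1
    · rw [res_not he]
      exact zero_le_one
  · intro S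
    rw [hsum, ← hconst]
    apply mul_le_mul_of_nonneg_right _ hq0
    have h2 : ∑ i, (T i ∩ S).card ≤ ∑ _i : Fin t, rk a b S :=
      sum_le_sum fun i _ => (tree_indep a b (hT.1 i) inter_subset_left).trans
        (rk_mono a b inter_subset_right)
    rw [sum_const, card_univ, Fintype.card_fin, smul_eq_mul] at h2
    exact_mod_cast h2
  · rw [hsum, ← hconst]
    have h2 : ∑ i, (T i ∩ univ).card = ∑ _i : Fin t, rk a b univ :=
      sum_congr rfl fun i _ => by
        rw [inter_univ]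
        have := (hT.1 i).2
        omega
    rw [sum_const, card_univ, Fintype.card_fin, smul_eq_mul] at h2
    rw [h2]
  · intro W hW
    unfold Tight
    rw [hsum, ← hconst]
    have h3 : rk a b (ins a b W) + 1 = W.card := by
      apply le_antisymm
      · exact rk_ends_le a b (hne W hW) fun e he => (mem_ins a b).1 he
      · have h4 := hK W hW ⟨0, ht⟩
        have h5 := tree_indep a b (hT.1 ⟨0, ht⟩) (F := T ⟨0, ht⟩ ∩ ins a b W) inter_subset_left
        have h6 := rk_mono a b (F := T ⟨0, ht⟩ ∩ ins a b W) (F' := ins a b W)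
          inter_subset_right
        omega
    have h2 : ∑ i, (T i ∩ ins a b W).card = ∑ _i : Fin t, rk a b (ins a b W) :=
      sum_congr rfl fun i _ => by
        have := hK W hW i
        omega
    rw [sum_const, card_univ, Fintype.card_fin, smul_eq_mul] at h2
    rw [h2]
  · intro C hC hCne hdis J hJ
    have hUne : (C.biUnion id).Nonempty := by
      obtain ⟨W, hW⟩ := hCne
      obtain ⟨v, hv⟩ := hne W (hC hW)
      exact ⟨v, mem_biUnion.2 ⟨W, hW, hv⟩⟩
    have h2 : rk a b (C.biUnion (ins a b) ∪ J) + 1 ≤ (C.biUnion id).card := by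
      refine rk_ends_le a b hUne fun e he => ?_
      rcases mem_union.1 he with he | he
      · obtain ⟨W, hW, h3⟩ := mem_biUnion.1 he
        obtain ⟨h4, h5⟩ := (mem_ins a b).1 h3
        exact ⟨mem_biUnion.2 ⟨W, hW, h4⟩, mem_biUnion.2 ⟨W, hW, h5⟩⟩
      · obtain ⟨⟨W, hW, h4⟩, ⟨W', hW', h5⟩, -⟩ := hJ e he
        exact ⟨mem_biUnion.2 ⟨W, hW, h4⟩, mem_biUnion.2 ⟨W', hW', h5⟩⟩
    have h3 : (C.biUnion id).card = ∑ W ∈ C, W.card := by
      rw [card_biUnion]
      · rfl
      · intro W hW W' hW' hne'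
        exact hdis W hW W' hW' hne'
    have h4 : (T ⟨0, ht⟩ ∩ C.biUnion (ins a b)).card =
        ∑ W ∈ C, (T ⟨0, ht⟩ ∩ ins a b W).card := by
      rw [inter_biUnion, card_biUnion]
      intro W hW W' hW' hne'
      change Disjoint (T ⟨0, ht⟩ ∩ ins a b W) (T ⟨0, ht⟩ ∩ ins a b W')
      rw [disjoint_left]
      intro e he he'
      exact disjoint_left.1 (hdis W hW W' hW' hne') ((mem_ins a b).1 (mem_inter.1 he).2).1
        ((mem_ins a b).1 (mem_inter.1 he').2).1
    have h5 : ∑ W ∈ C, (T ⟨0, ht⟩ ∩ ins a b W).card + C.card = ∑ W ∈ C, W.card := by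
      rw [card_eq_sum_ones, ← sum_add_distrib]
      exact sum_congr rfl fun W hW => hK W (hC hW) ⟨0, ht⟩
    have h6 := tree_indep a b (hT.1 ⟨0, ht⟩) (F := T ⟨0, ht⟩ ∩ C.biUnion (ins a b))
      inter_subset_left
    have h7 := rk_mono a b (F := T ⟨0, ht⟩ ∩ C.biUnion (ins a b))
      (F' := C.biUnion (ins a b)) inter_subset_right
    omega

/-- `k` disjoint spanning trees in `F` -/
theorem pack_trees (hV : Nonempty V) {k : ℕ} {F : Finset E}
    (h : ∀ J ⊆ F, k * (Fintype.card V - 1) ≤ k * rk a b J + (F \ J).card) :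
    ∃ C : Fin k → Finset E, Trees a b C ∧ un C ⊆ F := by
  have hn : 0 < Fintype.card V := Fintype.card_pos
  obtain ⟨C, hC1, hC2, hC3⟩ := MP21a058.pack_rk (t := k) (rk_rk a b) F (Fintype.card V - 1)
    (fun J' _ => by
      have := rk_le_pred a b hV J'
      omega) h
  refine ⟨C, ⟨fun i => ⟨?_, ?_⟩, hC2⟩, ?_⟩
  · apply conn_of_card_le a b
    · intro e _
      rw [mem_ins]
      exact ⟨mem_univ _, mem_univ _⟩
    · rw [card_univ, (hC3 i).2]
      omega
  · rw [(hC3 i).1]
    omega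
  · intro e he
    obtain ⟨i, hi⟩ := mem_un.1 he
    exact hC1 i hi

/-- **trees on both sides** -/
theorem sel3 {s q t : ℕ} (hst : s + 7 + (q + 7) = t) (T : Fin t → Finset E) (hT : Trees a b T)
    (L : Finset (Finset V)) (hne : ∀ Y ∈ L, Y.Nonempty)
    (hlam : ∀ X ∈ L, ∀ Y ∈ L, X ⊆ Y ∨ Y ⊆ X ∨ Disjoint X Y)
    (hL : ∀ Y ∈ L, ∀ i, (T i ∩ ins a b Y).card + 1 = Y.card) :
    ∃ (C : Fin s → Finset E) (D : Fin q → Finset E), Trees a b C ∧ Trees a b D ∧
      un C ⊆ un T ∧ un D ⊆ un T ∧ Disjoint (un C) (un D) ∧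
      ∀ Y ∈ L, t * (un C ∩ cut a b Y).card ≤ (s + 7) * (un T ∩ cut a b Y).card + 8 * t := by
  classical
  have ht : 0 < t := by omega
  have hV : Nonempty V := by
    have := (hT.1 ⟨0, ht⟩).2
    exact Fintype.card_pos_iff.1 (by omega)
  have htq : (0 : ℚ) < t := by exact_mod_cast ht
  have htq0 : (t : ℚ) ≠ 0 := ne_of_gt htq
  have htc : (t : ℚ) = (s : ℚ) + 7 + (q + 7) := by
    rw [← hst]
    push_cast
    ring
  have hs7 : ((s + 7 : ℕ) : ℚ) = (s : ℚ) + 7 := by push_cast; ring
  have hq7 : ((q + 7 : ℕ) : ℚ) = (q : ℚ) + 7 := by push_cast; ring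
  let x0 : E → ℚ := fun e => if e ∈ un T then ((s + 7 : ℕ) : ℚ) / t else 0
  have hx1 : ∀ e ∈ un T, x0 e = ((s + 7 : ℕ) : ℚ) / t := fun e he => if_pos he
  have hx2 : ∀ e ∉ un T, x0 e = 0 := fun e he => if_neg he
  let up : Finset V → ℤ := fun Y => ⌈((un T ∩ cut a b Y).card : ℚ) * (((s + 7 : ℕ) : ℚ) / t)⌉
  let K : Finset (Finset V) := L.filter fun Y => Y ≠ univ
  have hKL : K ⊆ L := filter_subset _ _
  have g1 : SideSt a b K (s + 7) (un T) (rk a b) x0 :=
    start_side a b (by omega) ht hT (fun Y hY => hne Y (hKL hY)) (fun Y hY => hL Y (hKL hY)) hx1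
  have g2 : SideSt a b K (q + 7) (un T) (rk a b) (fun e => 1 - x0 e) := by
    refine start_side a b (by omega) ht hT (fun Y hY => hne Y (hKL hY))
      (fun Y hY => hL Y (hKL hY)) fun e he => ?_
    rw [hx1 e he, hs7, hq7, htc]
    have h3 : (s : ℚ) + 7 + (q + 7) ≠ 0 := by rw [← htc]; exact htq0
    field_simp
    ring
  have h01 : ∀ e, 0 ≤ x0 e ∧ x0 e ≤ 1 := by
    intro e
    by_cases he : e ∈ un T
    · rw [hx1 e he]
      refine ⟨div_nonneg (Nat.cast_nonneg _) htq.le, ?_⟩
      rw [div_le_one htq]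
      exact_mod_cast (by omega : s + 7 ≤ t)
    · rw [hx2 e he]
      exact ⟨le_refl 0, zero_le_one⟩
  obtain ⟨x, hxi, hxk, hxc, hq1, hq2⟩ := loop2 s q up _ K (un T) (un T) (rk a b) (rk a b) x0 rfl
    (fun X hX Y hY => hlam X (hKL hX) Y (hKL hY)) (fun Y hY => hne Y (hKL hY))
    (fun Y hY => (mem_filter.1 hY).2) h01 g1 g2 (by
      intro Y _
      have h3 : ∑ e ∈ cut a b Y, x0 e = ((un T ∩ cut a b Y).card : ℚ) *
        (((s + 7 : ℕ) : ℚ) / t) := sum_start (un T) (cut a b Y) _
      rw [h3]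
      exact Int.le_ceil _)
  -- the two parts
  obtain ⟨X, hX⟩ : ∃ X : Finset E, ∀ e, e ∈ X ↔ x e = 1 :=
    ⟨univ.filter fun e => x e = 1, fun e => by simp⟩
  have hXT : X ⊆ un T := by
    intro e he
    by_contra hcon
    have h1 := hxk e (Or.inl (hx2 e hcon))
    rw [hx2 e hcon, (hX e).1 he] at h1
    exact one_ne_zero h1
  have hxs : ∀ S : Finset E, ∑ e ∈ S, x e = ((X ∩ S).card : ℚ) := by
    intro S
    have h1 := sum_start X S 1
    rw [mul_one] at h1
    rw [← h1]
    apply sum_congr rfl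
    intro e _
    by_cases he : x e = 1
    · rw [if_pos ((hX e).2 he), he]
    · rw [if_neg (fun h => he ((hX e).1 h))]
      exact (hxi e).resolve_right he
  have hfull : rk a b univ = Fintype.card V - 1 := by
    have h0 := rk_le_pred a b hV univ
    have h1 := card_le_of_conn a b (hT.1 ⟨0, ht⟩).1
    rw [card_univ] at h1
    have h2 := rk_mono a b (subset_univ (T ⟨0, ht⟩))
    omega
  obtain ⟨C, hC1, hC2⟩ := pack_trees a b hV (k := s) (F := X) (by
    intro J _
    have h1 := hq1 J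
    rw [sum_res, hxs] at h1
    have h2 : X ∩ (Jᶜ ∩ un T) = X \ J := by
      ext e
      simp only [mem_inter, mem_compl, mem_sdiff]
      have := @hXT e
      tauto
    rw [h2, hfull] at h1
    have h3 : s * (Fintype.card V - 1) ≤ (X \ J).card + s * rk a b J := by exact_mod_cast h1
    omega)
  obtain ⟨D, hD1, hD2⟩ := pack_trees a b hV (k := q) (F := un T \ X) (by
    intro J _
    have h1 := hq2 J
    rw [sum_res, sum_sub_distrib, sum_const, nsmul_eq_mul, mul_one, hxs] at h1
    have h2 : X ∩ (Jᶜ ∩ un T) ⊆ Jᶜ ∩ un T := inter_subset_right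
    have h3 : (un T \ X) \ J = (Jᶜ ∩ un T) \ (X ∩ (Jᶜ ∩ un T)) := by
      ext e
      simp only [mem_inter, mem_compl, mem_sdiff]
      tauto
    have h4 := card_sdiff_add_card_eq_card h2
    rw [← h3] at h4
    have h5 : (((un T \ X) \ J).card : ℚ) + ((X ∩ (Jᶜ ∩ un T)).card : ℚ) =
        ((Jᶜ ∩ un T).card : ℚ) := by exact_mod_cast h4
    rw [hfull] at h1
    have h6 : (q : ℚ) * ((Fintype.card V - 1 : ℕ) : ℚ) ≤ (((un T \ X) \ J).card : ℚ) +
        q * (rk a b J : ℚ) := by linarith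
    have h7 : q * (Fintype.card V - 1) ≤ ((un T \ X) \ J).card + q * rk a b J := by
      exact_mod_cast h6
    omega)
  refine ⟨C, D, hC1, hD1, hC2.trans hXT, hD2.trans sdiff_subset, ?_, ?_⟩
  · rw [disjoint_left]
    intro e h1 h2
    exact (mem_sdiff.1 (hD2 h2)).2 (hC2 h1)
  · intro Y hY
    by_cases hYu : Y = univ
    · subst hYu
      have h1 : cut a b (univ : Finset V) = ∅ := by
        ext e
        simp [mem_cut]
      rw [h1, inter_empty, card_empty]
      omega
    · have h1 := hxc Y (mem_filter.2 ⟨hY, hYu⟩)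
      rw [hxs] at h1
      have h2 : (up Y : ℚ) < ((un T ∩ cut a b Y).card : ℚ) * (((s + 7 : ℕ) : ℚ) / t) + 1 :=
        Int.ceil_lt_add_one _
      have h3 : (un C ∩ cut a b Y).card ≤ (X ∩ cut a b Y).card :=
        card_le_card (inter_subset_inter_right hC2)
      have h4 : ((un C ∩ cut a b Y).card : ℚ) ≤ ((X ∩ cut a b Y).card : ℚ) := by
        exact_mod_cast h3
      have h6 : ((un C ∩ cut a b Y).card : ℚ) ≤
          ((un T ∩ cut a b Y).card : ℚ) * (((s + 7 : ℕ) : ℚ) / t) + 8 := by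
        linarith
      have h7 := mul_le_mul_of_nonneg_left h6 htq.le
      have h8 : (t : ℚ) * (((un T ∩ cut a b Y).card : ℚ) * (((s + 7 : ℕ) : ℚ) / t) + 8) =
          ((s + 7 : ℕ) : ℚ) * ((un T ∩ cut a b Y).card : ℚ) + 8 * t := by
        field_simp
      rw [h8] at h7
      exact_mod_cast h7

theorem sel3All : Swap.Sel3All 7 8 := by
  intro V E _ _ _ _ a b s q t hst T hT L hne hlam hL
  exact sel3 a b hst T hT L hne hlam hL

end Pool.Agent.Lib.MP_21a058_co.Two
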