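import Pool.Agent.Lib.MP_21a058_co.Duo.Blk

/-!
MP_21a058_co, two-sided rounding with two matroids: the rank function after a small block is given up.

`P ⊆ M` are tight, `M \ P` is given up: the new rank function is `A ↦ r (A ∩ P) + r (A ∪ M) - r M`.
-/

set_option autoImplicit false

namespace Pool.Agent.Lib.MP_21a058_co.Two

open Finset MP21a058
open Pool.Agent.Lib.MP_21a058_co.Duo

variable {E : Type} [Fintype E] [DecidableEq E]

/-- the rank function after `M \ P` is given up -/
def fr (r : Finset E → ℕ) (P M : Finset E) (A : Finset E) : ℕ := r (A ∩ P) + r (A ∪ M) - r M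

/-- the point without the elements of `D` -/
def off (D : Finset E) (y : E → ℚ) : E → ℚ := fun e => if e ∈ D then 0 else y e

variable {r : Finset E → ℕ} {P M : Finset E}

theorem fr_add (h : Rk r) (A : Finset E) : fr r P M A + r M = r (A ∩ P) + r (A ∪ M) := by
  have h1 := h.mono M (A ∪ M) subset_union_right
  unfold fr
  omega

theorem fr_rk (h : Rk r) (hPM : P ⊆ M) : Rk (fr r P M) where
  emp := by
    unfold fr
    rw [empty_inter, empty_union, h.emp]
    omega
  mono s t hst := by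
    have h1 := h.mono (s ∩ P) (t ∩ P) (inter_subset_inter_right hst)
    have h2 := h.mono (s ∪ M) (t ∪ M) (union_subset_union_left hst)
    unfold fr
    omega
  one s e := by
    have hs := fr_add (P := P) (M := M) h s
    have hi := fr_add (P := P) (M := M) h (insert e s)
    by_cases he : e ∈ P
    · have h1 : insert e s ∩ P = insert e (s ∩ P) := insert_inter_of_mem he
      have h2 : insert e s ∪ M = s ∪ M := by
        ext z
        rw [mem_union, mem_insert, mem_union]
        constructor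
        · rintro ((rfl | hz) | hz)
          · exact Or.inr (hPM he)
          · exact Or.inl hz
          · exact Or.inr hz
        · rintro (hz | hz)
          · exact Or.inl (Or.inr hz)
          · exact Or.inr hz
      have h3 := h.one (s ∩ P) e
      rw [h1, h2] at hi
      omega
    · have h1 : insert e s ∩ P = s ∩ P := insert_inter_of_notMem he
      have h2 : insert e s ∪ M = insert e (s ∪ M) := insert_union e s M
      have h3 := h.one (s ∪ M) e
      rw [h1, h2] at hi
      omega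
  sub s t := by
    have hs := fr_add (P := P) (M := M) h s
    have ht := fr_add (P := P) (M := M) h t
    have hu := fr_add (P := P) (M := M) h (s ∪ t)
    have hi := fr_add (P := P) (M := M) h (s ∩ t)
    have h1 := h.sub (s ∩ P) (t ∩ P)
    have h2 := h.sub (s ∪ M) (t ∪ M)
    have e1 : (s ∩ P) ∪ (t ∩ P) = (s ∪ t) ∩ P := (union_inter_distrib_right s t P).symm
    have e2 : (s ∩ P) ∩ (t ∩ P) = (s ∩ t) ∩ P := by
      ext z
      simp only [mem_inter]
      tauto
    have e3 : (s ∪ M) ∪ (t ∪ M) = (s ∪ t) ∪ M := by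
      ext z
      simp only [mem_union]
      tauto
    have e4 : (s ∪ M) ∩ (t ∪ M) = (s ∩ t) ∪ M := (inter_union_distrib_right s t M).symm
    rw [e1, e2] at h1
    rw [e3, e4] at h2
    omega

/-- the sum of the new point -/
theorem sum_off (hPM : P ⊆ M) (y : E → ℚ) (S : Finset E) :
    ∑ e ∈ S, off (M \ P) y e = ∑ e ∈ S ∩ P, y e + ∑ e ∈ S ∪ M, y e - ∑ e ∈ M, y e := by
  have h1 : ∑ e ∈ S, off (M \ P) y e = ∑ e ∈ S \ (M \ P), y e := by
    have h2 : S \ (M \ P) = S.filter fun e => e ∉ M \ P := by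
      ext z
      rw [mem_sdiff, mem_filter]
    rw [h2, sum_filter]
    refine sum_congr rfl fun e _ => ?_
    unfold off
    by_cases he : e ∈ M \ P
    · rw [if_pos he, if_neg (not_not.2 he)]
    · rw [if_neg he, if_pos he]
  have h2 : S \ (M \ P) = (S ∩ P) ∪ (S \ M) := by
    ext z
    simp only [mem_sdiff, mem_union, mem_inter]
    have := @hPM z
    tauto
  have h3 : Disjoint (S ∩ P) (S \ M) := by
    rw [disjoint_left]
    intro z hz hz'
    exact (mem_sdiff.1 hz').2 (hPM (mem_inter.1 hz).2)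
  have h4 : S ∪ M = (S \ M) ∪ M := by
    rw [sdiff_union_self_eq_union]
  have h5 : Disjoint (S \ M) M := sdiff_disjoint
  rw [h1, h2, sum_union h3, h4, sum_union h5]
  ring

theorem fr_feas {s : ℕ} {y : E → ℚ} (h : Feas r s y) (hPM : P ⊆ M) (hP : Tight r s y P)
    (hM : Tight r s y M) : Feas (fr r P M) s (off (M \ P) y) where
  rk := fr_rk h.rk hPM
  nn e := by
    unfold off
    by_cases he : e ∈ M \ P
    · rw [if_pos he]
    · rw [if_neg he]
      exact h.nn e
  le1 e := by
    unfold off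
    by_cases he : e ∈ M \ P
    · rw [if_pos he]
      exact zero_le_one
    · rw [if_neg he]
      exact h.le1 e
  le S := by
    rw [sum_off hPM]
    have h1 := h.le (S ∩ P)
    have h2 := h.le (S ∪ M)
    have h3 : ((fr r P M S : ℕ) : ℚ) + r M = r (S ∩ P) + r (S ∪ M) := by
      exact_mod_cast fr_add h.rk S
    unfold Tight at hM
    have h4 : (s : ℚ) * fr r P M S = s * r (S ∩ P) + s * r (S ∪ M) - s * r M := by
      have h5 : ((fr r P M S : ℕ) : ℚ) = r (S ∩ P) + r (S ∪ M) - r M := by linarith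
      rw [h5]
      ring
    rw [h4, hM]
    linarith
  top := by
    rw [sum_off hPM, univ_inter, union_eq_left.2 (subset_univ M)]
    have h3 : ((fr r P M univ : ℕ) : ℚ) + r M = r P + r univ := by
      have h4 := fr_add (P := P) (M := M) h.rk univ
      rw [univ_inter, union_eq_left.2 (subset_univ M)] at h4
      exact_mod_cast h4
    have h1 := h.top
    unfold Tight at hM hP
    rw [hM, hP, h1]
    have h5 : ((fr r P M univ : ℕ) : ℚ) = r P + r univ - r M := by linarith
    rw [h5]
    ring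

theorem fr_tight {s : ℕ} {y : E → ℚ} (h : Feas r s y) (hPM : P ⊆ M) (hP : Tight r s y P)
    (hM : Tight r s y M) {S : Finset E} (hS : Tight r s y S) :
    Tight (fr r P M) s (off (M \ P) y) S := by
  have h1 := h.tight_inter hS hP
  have h2 := h.tight_union hS hM
  have h3 : ((fr r P M S : ℕ) : ℚ) + r M = r (S ∩ P) + r (S ∪ M) := by
    exact_mod_cast fr_add h.rk S
  unfold Tight at *
  rw [sum_off hPM, h1, h2, hM]
  have h5 : ((fr r P M S : ℕ) : ℚ) = r (S ∩ P) + r (S ∪ M) - r M := by linarith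
  rw [h5]
  ring

/-- marginals over a tight set do not grow -/
theorem fr_marg {s : ℕ} {y : E → ℚ} (hs : 0 < s) (h : Feas r s y) (hPM : P ⊆ M)
    (hP : Tight r s y P) {Z : Finset E} (hZ : Tight r s y Z) (J : Finset E) :
    fr r P M (Z ∪ J) + r Z ≤ fr r P M Z + r (Z ∪ J) := by
  have hmod : r Z + r P ≤ r (Z ∪ P) + r (Z ∩ P) := by
    have h1 : ∑ e ∈ Z ∪ P, y e + ∑ e ∈ Z ∩ P, y e = ∑ e ∈ Z, y e + ∑ e ∈ P, y e :=
      sum_union_inter
    have h2 := h.tight_union hZ hP
    have h3 := h.tight_inter hZ hP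
    unfold Tight at *
    rw [h2, h3, hZ, hP, ← mul_add, ← mul_add] at h1
    have h4 : (s : ℚ) ≠ 0 := by
      exact_mod_cast (by omega : s ≠ 0)
    have h5 := mul_left_cancel₀ h4 h1
    have h6 : r (Z ∪ P) + r (Z ∩ P) = r Z + r P := by exact_mod_cast h5
    omega
  have hu := fr_add (P := P) (M := M) h.rk (Z ∪ J)
  have hz := fr_add (P := P) (M := M) h.rk Z
  obtain ⟨A, hA⟩ : ∃ A, A = (Z ∪ J) ∩ P := ⟨_, rfl⟩
  have h1 := h.rk.sub (Z ∪ A) P
  have e1 : Z ∪ A ∪ P = Z ∪ P := by
    ext z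
    rw [hA]
    simp only [mem_union, mem_inter]
    tauto
  have e2 : (Z ∪ A) ∩ P = A := by
    ext z
    rw [hA]
    simp only [mem_union, mem_inter]
    tauto
  rw [e1, e2] at h1
  have h2 := h.rk.sub (Z ∪ J) (Z ∪ M)
  have e3 : Z ∪ J ∪ (Z ∪ M) = Z ∪ J ∪ M := by
    ext z
    simp only [mem_union]
    tauto
  have h3 := h.rk.mono (Z ∪ A) ((Z ∪ J) ∩ (Z ∪ M)) (by
    intro z hz'
    rw [hA] at hz'
    simp only [mem_union, mem_inter] at hz' ⊢
    have := @hPM z
    tauto)
  rw [e3] at h2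
  rw [← hA] at hu
  omega

/-- **backward accounting** -/
theorem fr_back {s k c : ℕ} (hs : k + c = s) {y w : E → ℚ} (h : Feas r s y) (hPM : P ⊆ M)
    (hM : Tight r s y M) (hc : (frac y ∩ (M \ P)).card ≤ c)
    (hw0 : ∀ e, 0 ≤ w e) (hw1 : ∀ e ∈ M \ P, y e = 1 → w e = 1)
    (hw : ∀ A : Finset E, (k : ℚ) * fr r P M univ ≤
      ∑ e ∈ Aᶜ, off (M \ P) w e + k * fr r P M A) (A : Finset E) :
    (k : ℚ) * r univ ≤ ∑ e ∈ Aᶜ, w e + k * r A := by
  obtain ⟨A', hA'⟩ : ∃ A', A' = P ∪ (A ∩ M) := ⟨_, rfl⟩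
  have hA'M : A' ⊆ M := by
    rw [hA']
    exact union_subset hPM inter_subset_right
  -- the rank inequality
  have hrk : r univ + r A' + fr r P M A ≤ fr r P M univ + r A + r M := by
    have h1 := h.rk.sub A M
    have h2 := h.rk.sub (A ∩ M) P
    have e1 : A ∩ M ∪ P = A' := by
      rw [hA', union_comm]
    have e2 : A ∩ M ∩ P = A ∩ P := by
      ext z
      simp only [mem_inter]
      have := @hPM z
      tauto
    rw [e1, e2] at h2
    have h3 := fr_add (P := P) (M := M) h.rk A
    have h4 := fr_add (P := P) (M := M) h.rk univ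
    rw [univ_inter, union_eq_left.2 (subset_univ M)] at h4
    omega
  have hrkq : (r univ : ℚ) + r A' + fr r P M A ≤ fr r P M univ + r A + r M := by
    exact_mod_cast hrk
  have hk0 : (0 : ℚ) ≤ (k : ℚ) := Nat.cast_nonneg k
  -- the sums
  have hsum : ∑ e ∈ Aᶜ, w e = ∑ e ∈ Aᶜ, off (M \ P) w e + ∑ e ∈ Aᶜ ∩ (M \ P), w e := by
    have h1 : ∑ e ∈ Aᶜ ∩ (M \ P), w e = ∑ e ∈ Aᶜ, (if e ∈ M \ P then w e else 0) := by
      rw [sum_ite_mem]
    rw [h1, ← sum_add_distrib]
    refine sum_congr rfl fun e _ => ?_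
    unfold off
    by_cases he : e ∈ M \ P
    · rw [if_pos he, if_pos he, zero_add]
    · rw [if_neg he, if_neg he, add_zero]
  -- the elements of value one
  have hkey : (k : ℚ) * ((r M : ℚ) - r A') ≤ ∑ e ∈ Aᶜ ∩ (M \ P), w e := by
    have hw2 : 0 ≤ ∑ e ∈ Aᶜ ∩ (M \ P), w e := sum_nonneg fun e _ => hw0 e
    have hmon := h.rk.mono A' M hA'M
    rcases Nat.lt_or_ge (r A') (r M) with hlt | hge
    · have hD : M \ A' = Aᶜ ∩ (M \ P) := by
        ext z
        rw [hA']
        simp only [mem_sdiff, mem_union, mem_inter, mem_compl]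
        tauto
      have h1 : ∑ e ∈ M \ A', y e + ∑ e ∈ A', y e = ∑ e ∈ M, y e := sum_sdiff hA'M
      have h2 := h.le A'
      unfold Tight at hM
      rw [hM, hD] at h1
      have h3 : ∑ e ∈ Aᶜ ∩ (M \ P), y e ≤
          ∑ e ∈ Aᶜ ∩ (M \ P), (w e + if e ∈ frac y then 1 else 0) := by
        refine sum_le_sum fun e he => ?_
        by_cases hf : e ∈ frac y
        · rw [if_pos hf]
          have := h.le1 e
          have := hw0 e
          linarith
        · rw [if_neg hf, add_zero]
          rw [mem_frac] at hf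
          by_cases h0 : y e = 0
          · rw [h0]
            exact hw0 e
          · have h5 : y e = 1 := by
              by_contra h6
              exact hf ⟨h0, h6⟩
            rw [h5, hw1 e (mem_inter.1 he).2 h5]
      rw [sum_add_distrib] at h3
      have h4 : ∑ e ∈ Aᶜ ∩ (M \ P), (if e ∈ frac y then (1 : ℚ) else 0) ≤ (c : ℚ) := by
        rw [sum_ite_mem, sum_const, nsmul_eq_mul, mul_one]
        have h5 : (Aᶜ ∩ (M \ P) ∩ frac y).card ≤ c := by
          refine (card_le_card ?_).trans hc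
          intro z hz
          rw [mem_inter, mem_inter] at hz
          exact mem_inter.2 ⟨hz.2, hz.1.2⟩
        exact_mod_cast h5
      have h5 : (s : ℚ) = k + c := by
        rw [← hs]
        push_cast
        ring
      have h6 : (1 : ℚ) ≤ (r M : ℚ) - r A' := by
        have h7 : ((r A' + 1 : ℕ) : ℚ) ≤ (r M : ℚ) := by exact_mod_cast hlt
        push_cast at h7
        linarith
      have h7 : (s : ℚ) * ((r M : ℚ) - r A') - c ≤ ∑ e ∈ Aᶜ ∩ (M \ P), w e := by
        rw [mul_sub]
        linarith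
      have h8 : (c : ℚ) * 1 ≤ (c : ℚ) * ((r M : ℚ) - r A') :=
        mul_le_mul_of_nonneg_left h6 (Nat.cast_nonneg c)
      rw [h5, add_mul] at h7
      linarith
    · have h1 : r M = r A' := le_antisymm hge hmon
      rw [h1, sub_self, mul_zero]
      exact hw2
  have h1 := hw A
  have h2 := mul_le_mul_of_nonneg_left hrkq hk0
  rw [hsum]
  have e1 : (k : ℚ) * ((r univ : ℚ) + r A' + fr r P M A) = k * r univ + k * r A' +
    k * fr r P M A := by ring
  have e2 : (k : ℚ) * ((fr r P M univ : ℚ) + r A + r M) = k * fr r P M univ + k * r A +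
    k * r M := by ring
  have e3 : (k : ℚ) * ((r M : ℚ) - r A') = k * r M - k * r A' := by ring
  rw [e1, e2] at h2
  rw [e3] at hkey
  linarith

/-- the two tight sets around a block -/
theorem exists_pm {s : ℕ} {y : E → ℚ} (h : Feas r s y) {D : Finset E} (hD : D ∈ blks r s y) :
    ∃ P M : Finset E, P ⊆ M ∧ Tight r s y P ∧ Tight r s y M ∧
      (∃ e ∈ frac y, e ∈ M \ P) ∧ frac y ∩ (M \ P) ⊆ D := by
  classical
  unfold blks at hD
  obtain ⟨e, he, rfl⟩ := mem_image.1 hD
  obtain ⟨P, hP⟩ : ∃ P : Finset E, P = (univ.filter fun S : Finset E =>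
      Tight r s y S ∧ S ⊆ mm r s y e ∧ e ∉ S).biUnion id := ⟨_, rfl⟩
  have hPt : Tight r s y P := by
    rw [hP]
    exact h.tight_biUnion _ _ fun S hS => (mem_filter.1 hS).2.1
  have hPm : P ⊆ mm r s y e := by
    rw [hP]
    intro z hz
    obtain ⟨S, hS, hzS⟩ := mem_biUnion.1 hz
    exact (mem_filter.1 hS).2.2.1 hzS
  refine ⟨P, mm r s y e, hPm, hPt, h.mm_tight e, ⟨e, he, mem_sdiff.2 ⟨h.mem_mm e, ?_⟩⟩, ?_⟩
  · intro hcon
    rw [hP] at hcon
    obtain ⟨S, hS, heS⟩ := mem_biUnion.1 hcon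
    exact (mem_filter.1 hS).2.2.2 heS
  · intro f hf
    obtain ⟨hf1, hf2⟩ := mem_inter.1 hf
    obtain ⟨h1, h2⟩ := mem_sdiff.1 hf2
    refine mem_blk.2 ⟨hf1, ?_⟩
    have h3 := mm_min (h.mm_tight e) h1
    refine Subset.antisymm h3 ?_
    by_cases h4 : e ∈ mm r s y f
    · exact mm_min (h.mm_tight f) h4
    · exfalso
      apply h2
      rw [hP]
      exact mem_biUnion.2 ⟨mm r s y f, mem_filter.2 ⟨mem_univ _, h.mm_tight f, h3, h4⟩,
        h.mem_mm f⟩

end Pool.Agent.Lib.MP_21a058_co.Two
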