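import Pool.Agent.Lib.MP_21a058_co.Two.Vertex

/-!
# The rounding loop

Rows which are always kept, and rows of upper bounds `x(D W) ≤ up W` which may be dropped as soon as at most
`c` coordinates of `D W` are fractional: the result is integral, and every dropped bound is exceeded by at
most `c`.
-/

namespace Pool.Agent.Lib.MP_21a058_co.Two

open Finset

variable {E ι κ : Type*} [Fintype E] [DecidableEq E] [Finite ι]

theorem sum_indic (D : Finset E) (y : E → ℚ) :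
    ∑ e, (if e ∈ D then (1 : ℚ) else 0) * y e = ∑ e ∈ D, y e := by
  simp [ite_mul, sum_ite_mem]

theorem round_loop_aux (A : ι → E → ℚ) (b : ι → ℚ) (D : κ → Finset E) (up : κ → ℚ) (c : ℕ)
    (hcount : ∀ (K : Finset κ) (x : E → ℚ), (∀ e, 0 ≤ x e ∧ x e ≤ 1) →
      (∀ i, ∑ e, A i e * x e ≤ b i) → (∀ W ∈ K, ∑ e ∈ D W, x e ≤ up W) →
      (∀ y : E → ℚ, (∀ e, x e = 0 ∨ x e = 1 → y e = 0) →
        (∀ i, ∑ e, A i e * x e = b i → ∑ e, A i e * y e = 0) →
        (∀ W ∈ K, ∑ e ∈ D W, x e = up W → ∑ e ∈ D W, y e = 0) → y = 0) →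
      (∃ e, x e ≠ 0 ∧ x e ≠ 1) →
      ∃ W ∈ K, ((D W).filter fun e => x e ≠ 0 ∧ x e ≠ 1).card ≤ c) :
    ∀ (n : ℕ) (K : Finset κ), K.card ≤ n → ∀ x0 : E → ℚ, (∀ e, 0 ≤ x0 e ∧ x0 e ≤ 1) →
      (∀ i, ∑ e, A i e * x0 e ≤ b i) → (∀ W ∈ K, ∑ e ∈ D W, x0 e ≤ up W) →
      ∃ x : E → ℚ, (∀ e, x e = 0 ∨ x e = 1) ∧ (∀ i, ∑ e, A i e * x e ≤ b i) ∧
        (∀ e, x0 e = 0 ∨ x0 e = 1 → x e = x0 e) ∧ ∀ W ∈ K, ∑ e ∈ D W, x e ≤ up W + c := by
  classical
  intro n
  induction n with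
  | zero =>
    intro K hKn x0 h01 h0 hK
    have hK0 : K = ∅ := card_eq_zero.1 (Nat.le_zero.1 hKn)
    subst hK0
    obtain ⟨x, hx01, hx0, -, hx2, hx3⟩ := exists_vertex A b x0 h01 h0
    refine ⟨x, ?_, hx0, hx2, fun W hW => absurd hW (notMem_empty W)⟩
    by_contra hfr
    push Not at hfr
    obtain ⟨e, he⟩ := hfr
    obtain ⟨W, hW, -⟩ := hcount ∅ x hx01 hx0 (fun W hW => absurd hW (notMem_empty W))
      (fun y hy1 hy2 _ => hx3 y hy1 hy2) ⟨e, he⟩
    exact absurd hW (notMem_empty W)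
  | succ n ih =>
    intro K hKn x0 h01 h0 hK
    let A' : ι ⊕ {W // W ∈ K} → E → ℚ := fun i e => match i with
      | .inl i => A i e
      | .inr W => if e ∈ D W.1 then 1 else 0
    let b' : ι ⊕ {W // W ∈ K} → ℚ := fun i => match i with
      | .inl i => b i
      | .inr W => up W.1
    have hA1 : ∀ (i : ι) (x : E → ℚ), ∑ e, A' (.inl i) e * x e = ∑ e, A i e * x e :=
      fun _ _ => rfl
    have hA2 : ∀ (W : {W // W ∈ K}) (x : E → ℚ), ∑ e, A' (.inr W) e * x e = ∑ e ∈ D W.1, x e :=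
      fun W x => sum_indic (D W.1) x
    have hf0 : ∀ i, ∑ e, A' i e * x0 e ≤ b' i := by
      rintro (i | W)
      · exact h0 i
      · rw [hA2]; exact hK W.1 W.2
    obtain ⟨x1, hx01, hx0, -, hx2, hx3⟩ := exists_vertex A' b' x0 h01 hf0
    have hrow : ∀ i, ∑ e, A i e * x1 e ≤ b i := fun i => hx0 (.inl i)
    have hcut : ∀ W ∈ K, ∑ e ∈ D W, x1 e ≤ up W := by
      intro W hW
      have h := hx0 (.inr ⟨W, hW⟩)
      rw [hA2] at h
      exact h
    by_cases hfr : ∃ e, x1 e ≠ 0 ∧ x1 e ≠ 1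
    · obtain ⟨W, hW, hWc⟩ := hcount K x1 hx01 hrow hcut (by
        intro y hy1 hy2 hy3
        refine hx3 y hy1 ?_
        rintro (i | W) h
        · exact hy2 i h
        · rw [hA2] at h ⊢
          exact hy3 W.1 W.2 h) hfr
      have hcard : (K.erase W).card ≤ n := by
        rw [card_erase_of_mem hW]
        omega
      obtain ⟨x, hx, hxr, hxk, hxc⟩ := ih (K.erase W) hcard x1 hx01 hrow
        (fun W' hW' => hcut W' (mem_of_mem_erase hW'))
      refine ⟨x, hx, hxr, fun e he => ?_, fun W' hW' => ?_⟩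
      · have h1 := hx2 e he
        rw [← h1]
        exact hxk e (by rw [h1]; exact he)
      · by_cases hWW : W' = W
        · subst hWW
          have hsplit : ∑ e ∈ D W', x e = ∑ e ∈ D W', x1 e + ∑ e ∈ D W', (x e - x1 e) := by
            rw [← sum_add_distrib]
            exact sum_congr rfl fun e _ => by ring
          have hfrac : ∑ e ∈ D W', (x e - x1 e) =
              ∑ e ∈ (D W').filter (fun e => x1 e ≠ 0 ∧ x1 e ≠ 1), (x e - x1 e) := by
            rw [sum_filter]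
            refine sum_congr rfl fun e _ => ?_
            by_cases he : x1 e ≠ 0 ∧ x1 e ≠ 1
            · rw [if_pos he]
            · rw [if_neg he]
              have he' : x1 e = 0 ∨ x1 e = 1 := by
                by_contra h
                push Not at h
                exact he h
              rw [hxk e he', sub_self]
          have hbound : ∑ e ∈ (D W').filter (fun e => x1 e ≠ 0 ∧ x1 e ≠ 1), (x e - x1 e) ≤ c := by
            calc ∑ e ∈ (D W').filter (fun e => x1 e ≠ 0 ∧ x1 e ≠ 1), (x e - x1 e)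
                ≤ ∑ _e ∈ (D W').filter (fun e => x1 e ≠ 0 ∧ x1 e ≠ 1), (1 : ℚ) := by
                  refine sum_le_sum fun e _ => ?_
                  have h1 := (hx01 e).1
                  rcases hx e with h | h <;> rw [h] <;> linarith
              _ = (((D W').filter (fun e => x1 e ≠ 0 ∧ x1 e ≠ 1)).card : ℚ) := by
                  rw [sum_const, nsmul_eq_mul, mul_one]
              _ ≤ c := by exact_mod_cast hWc
          rw [hsplit, hfrac]
          linarith [hcut W' hW']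
        · exact hxc W' (mem_erase.2 ⟨hWW, hW'⟩)
    · have hint : ∀ e, x1 e = 0 ∨ x1 e = 1 := by
        intro e
        by_contra h
        push Not at h
        exact hfr ⟨e, h⟩
      refine ⟨x1, hint, hrow, hx2, fun W hW => ?_⟩
      have h1 := hcut W hW
      have h2 : (0 : ℚ) ≤ c := Nat.cast_nonneg c
      linarith

theorem round_loop (A : ι → E → ℚ) (b : ι → ℚ) (D : κ → Finset E) (up : κ → ℚ) (c : ℕ)
    (hcount : ∀ (K : Finset κ) (x : E → ℚ), (∀ e, 0 ≤ x e ∧ x e ≤ 1) →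
      (∀ i, ∑ e, A i e * x e ≤ b i) → (∀ W ∈ K, ∑ e ∈ D W, x e ≤ up W) →
      (∀ y : E → ℚ, (∀ e, x e = 0 ∨ x e = 1 → y e = 0) →
        (∀ i, ∑ e, A i e * x e = b i → ∑ e, A i e * y e = 0) →
        (∀ W ∈ K, ∑ e ∈ D W, x e = up W → ∑ e ∈ D W, y e = 0) → y = 0) →
      (∃ e, x e ≠ 0 ∧ x e ≠ 1) →
      ∃ W ∈ K, ((D W).filter fun e => x e ≠ 0 ∧ x e ≠ 1).card ≤ c)
    (x0 : E → ℚ) (h01 : ∀ e, 0 ≤ x0 e ∧ x0 e ≤ 1) (h0 : ∀ i, ∑ e, A i e * x0 e ≤ b i)
    (K : Finset κ) (hK : ∀ W ∈ K, ∑ e ∈ D W, x0 e ≤ up W) :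
    ∃ x : E → ℚ, (∀ e, x e = 0 ∨ x e = 1) ∧ (∀ i, ∑ e, A i e * x e ≤ b i) ∧
      (∀ e, x0 e = 0 ∨ x0 e = 1 → x e = x0 e) ∧ ∀ W ∈ K, ∑ e ∈ D W, x e ≤ up W + c :=
  round_loop_aux A b D up c hcount K.card K le_rfl x0 h01 h0 hK

end Pool.Agent.Lib.MP_21a058_co.Two
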