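import Pool.Agent.Lib.MP_21a058_co.Two.Vertex
import Pool.Agent.Lib.MP_21a058_co.Two.Loop
import Pool.Agent.Lib.MP_21a058_co.Two.Free2
import Pool.Agent.Lib.MP_21a058_co.Duo.Count2

/-!
MP_21a058_co, two-sided rounding with two matroids: the loop. At a vertex a small block of one of the two
sides is given up, or a kept cut with at most seven fractional edges is dropped.
-/

set_option autoImplicit false

namespace Pool.Agent.Lib.MP_21a058_co.Two

open Finset MP21a058
open Pool.Agent.Lib.MP_21a058_co.P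
open Pool.Agent.Lib.MP_21a058_co.Duo

section res
variable {E : Type} [DecidableEq E]

/-- the point on a set -/
def res (B : Finset E) (z : E → ℚ) : E → ℚ := fun e => if e ∈ B then z e else 0

theorem sum_res (B S : Finset E) (z : E → ℚ) : ∑ e ∈ S, res B z e = ∑ e ∈ S ∩ B, z e := by
  unfold res
  rw [sum_ite_mem]

theorem off_res (B D : Finset E) (z : E → ℚ) : off D (res B z) = res (B \ D) z := by
  funext e
  unfold off res
  by_cases h1 : e ∈ D
  · rw [if_pos h1, if_neg (fun h => (mem_sdiff.1 h).2 h1)]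
  · by_cases h2 : e ∈ B
    · rw [if_neg h1, if_pos h2, if_pos (mem_sdiff.2 ⟨h2, h1⟩)]
    · rw [if_neg h1, if_neg h2, if_neg (fun h => h2 (mem_sdiff.1 h).1)]

theorem res_mem {B : Finset E} {z : E → ℚ} {e : E} (h : e ∈ B) : res B z e = z e := by
  unfold res
  rw [if_pos h]

theorem res_not {B : Finset E} {z : E → ℚ} {e : E} (h : e ∉ B) : res B z e = 0 := by
  unfold res
  rw [if_neg h]

theorem mem_frac_res [Fintype E] {B : Finset E} {z : E → ℚ} {e : E} :
    e ∈ frac (res B z) ↔ e ∈ B ∧ e ∈ frac z := by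
  rw [mem_frac, mem_frac]
  by_cases h : e ∈ B
  · rw [res_mem h]
    exact ⟨fun h1 => ⟨h, h1⟩, fun h1 => h1.2⟩
  · rw [res_not h]
    exact ⟨fun h1 => absurd rfl h1.1, fun h1 => absurd h1.1 h⟩

end res

variable {V E : Type} [Fintype V] [DecidableEq V] [Fintype E] [DecidableEq E] (a b : E → V)

/-- marginals of the edges between disjoint members -/
def MB (K : Finset (Finset V)) (r : Finset E → ℕ) : Prop :=
  ∀ C ⊆ K, C.Nonempty → (∀ W ∈ C, ∀ W' ∈ C, W ≠ W' → Disjoint W W') →
    ∀ J : Finset E,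
      (∀ e ∈ J, (∃ W ∈ C, a e ∈ W) ∧ (∃ W ∈ C, b e ∈ W) ∧ ∀ W ∈ C, e ∉ ins a b W) →
      r (C.biUnion (ins a b) ∪ J) + 1 ≤ r (C.biUnion (ins a b)) + C.card

/-- the state of one side -/
structure SideSt (K : Finset (Finset V)) (s : ℕ) (B : Finset E) (r : Finset E → ℕ)
    (z : E → ℚ) : Prop where
  feas : Feas r s (res B z)
  tt : ∀ W ∈ K, Tight r s (res B z) (ins a b W)
  mb : MB a b K r

variable {a b} {K : Finset (Finset V)} {s : ℕ} {B : Finset E} {r : Finset E → ℕ} {z : E → ℚ}

theorem SideSt.anti (h : SideSt a b K s B r z) {K' : Finset (Finset V)} (hK : K' ⊆ K) :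
    SideSt a b K' s B r z :=
  ⟨h.feas, fun W hW => h.tt W (hK hW), fun C hC => h.mb C (hC.trans hK)⟩

theorem SideSt.free (hs : 0 < s) (h : SideSt a b K s B r z) {P M : Finset E} (hPM : P ⊆ M)
    (hP : Tight r s (res B z) P) (hM : Tight r s (res B z) M) :
    SideSt a b K s (B \ (M \ P)) (fr r P M) z where
  feas := by
    rw [← off_res]
    exact fr_feas h.feas hPM hP hM
  tt W hW := by
    rw [← off_res]
    exact fr_tight h.feas hPM hP hM (h.tt W hW)
  mb C hC hCne hdis J hJ := by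
    have hZ : Tight r s (res B z) (C.biUnion (ins a b)) :=
      h.feas.tight_biUnion _ _ fun W hW => h.tt W (hC hW)
    have h1 := fr_marg hs h.feas (M := M) hPM hP hZ J
    have h2 := h.mb C hC hCne hdis J hJ
    omega

theorem SideSt.side (h : SideSt a b K s B r z) {F : Finset E} (hF : frac z ⊆ F) :
    Side a b F K (blks r s (res B z)) where
  sub D hD := by
    intro e he
    exact hF (mem_frac_res.1 (blks_sub hD he)).2
  disj D hD D' hD' hne := blks_disj hD hD' hne
  con W hW D hD := h.feas.blks_tight (h.tt W hW) hD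
  rep C hC hCne hdis J hJD hJi hJe := by
    have hZ : Tight r s (res B z) (C.biUnion (ins a b)) :=
      h.feas.tight_biUnion _ _ fun W hW => h.tt W (hC hW)
    have hJX : J ⊆ frac (res B z) := by
      intro e he
      obtain ⟨D, hD, h1⟩ := hJD e he
      exact blks_sub hD h1
    have h1 := h.feas.reps hZ J.card J rfl hJX (fun e he hcon => by
      obtain ⟨W, hW, h2⟩ := mem_biUnion.1 hcon
      exact (hJe e he).2.2 W hW h2) (by
      intro e he f hf hmm
      have h2 : blk r s (res B z) e = blk r s (res B z) f := (blk_eq_iff (hJX he)).2 hmm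
      refine hJi (blk r s (res B z) e) (mem_image_of_mem _ (hJX he)) e he f hf
        (mem_blk_self (hJX he)) ?_
      rw [h2]
      exact mem_blk_self (hJX hf))
    have h2 := h.mb C hC hCne hdis J hJe
    omega

/-- tight rows of one side from its blocks -/
theorem SideSt.ker (h : SideSt a b K s B r z) {y : E → ℚ} (hy : ∀ e, e ∉ frac z → y e = 0)
    (hb : ∀ D ∈ blks r s (res B z), ∑ e ∈ D, y e = 0) {S : Finset E}
    (hS : Tight r s (res B z) S) : ∑ e ∈ S ∩ B, y e = 0 := by
  rw [← sum_res]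
  refine sum_zero (r := r) (s := s) (x := res B z) ?_ ?_ (fun D hD => h.feas.blks_tight hS hD)
  · intro e he
    by_cases h1 : e ∈ B
    · rw [res_mem h1]
      exact hy e fun h2 => he (mem_frac_res.2 ⟨h1, h2⟩)
    · exact res_not h1
  · intro D hD
    rw [← hb D hD]
    refine sum_congr rfl fun e he => ?_
    exact res_mem (mem_frac_res.1 (blks_sub hD he)).1

variable {s1 s2 : ℕ} {B1 B2 : Finset E} {r1 r2 : Finset E → ℕ}

/-- **the vertex** -/
theorem vertex2 (up : Finset V → ℤ) {x0 : E → ℚ} (h01 : ∀ e, 0 ≤ x0 e ∧ x0 e ≤ 1)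
    (h1 : SideSt a b K s1 B1 r1 x0) (h2 : SideSt a b K s2 B2 r2 (fun e => 1 - x0 e))
    (hK : ∀ W ∈ K, ∑ e ∈ cut a b W, x0 e ≤ (up W : ℚ)) :
    ∃ x : E → ℚ, (∀ e, 0 ≤ x e ∧ x e ≤ 1) ∧ SideSt a b K s1 B1 r1 x ∧
      SideSt a b K s2 B2 r2 (fun e => 1 - x e) ∧
      (∀ W ∈ K, ∑ e ∈ cut a b W, x e ≤ (up W : ℚ)) ∧
      (∀ e, x0 e = 0 ∨ x0 e = 1 → x e = x0 e) ∧
      ∀ y : E → ℚ, (∀ e, e ∉ frac x → y e = 0) →
        (∀ S, Tight r1 s1 (res B1 x) S → ∑ e ∈ S ∩ B1, y e = 0) →
        (∀ S, Tight r2 s2 (res B2 fun e => 1 - x e) S → ∑ e ∈ S ∩ B2, y e = 0) →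
        (∀ W ∈ K, ∑ e ∈ cut a b W, x e = (up W : ℚ) → ∑ e ∈ cut a b W, y e = 0) → y = 0 := by
  classical
  let A : Finset E ⊕ (Finset E ⊕ {W // W ∈ K}) → E → ℚ := fun i e => match i with
    | .inl S => if e ∈ S ∩ B1 then 1 else 0
    | .inr (.inl S) => -(if e ∈ S ∩ B2 then 1 else 0)
    | .inr (.inr W) => if e ∈ cut a b W.1 then 1 else 0
  let c : Finset E ⊕ (Finset E ⊕ {W // W ∈ K}) → ℚ := fun i => match i with
    | .inl S => (s1 : ℚ) * r1 S
    | .inr (.inl S) => (s2 : ℚ) * r2 S - (S ∩ B2).card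
    | .inr (.inr W) => (up W.1 : ℚ)
  have hA1 : ∀ (S : Finset E) (x : E → ℚ), ∑ e, A (.inl S) e * x e = ∑ e ∈ S ∩ B1, x e :=
    fun S x => sum_indic (S ∩ B1) x
  have hA2 : ∀ (S : Finset E) (x : E → ℚ), ∑ e, A (.inr (.inl S)) e * x e =
      -∑ e ∈ S ∩ B2, x e := by
    intro S x
    rw [← sum_indic (S ∩ B2) x, ← sum_neg_distrib]
    exact sum_congr rfl fun e _ => neg_mul _ _
  have hA3 : ∀ (W : {W // W ∈ K}) (x : E → ℚ), ∑ e, A (.inr (.inr W)) e * x e =
      ∑ e ∈ cut a b W.1, x e := fun W x => sum_indic (cut a b W.1) x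
  -- the second side
  have hs2 : ∀ (S : Finset E) (x : E → ℚ), ∑ e ∈ S, res B2 (fun e => 1 - x e) e =
      ((S ∩ B2).card : ℚ) - ∑ e ∈ S ∩ B2, x e := by
    intro S x
    rw [sum_res, sum_sub_distrib, sum_const, nsmul_eq_mul, mul_one]
  obtain ⟨x, hx01, hxr, hxt, hxk, hxv⟩ := exists_vertex A c x0 h01 (by
    intro i
    match i with
    | .inl S =>
      rw [hA1, ← sum_res]
      exact h1.feas.le S
    | .inr (.inl S) =>
      rw [hA2]
      have h3 := h2.feas.le S
      rw [hs2] at h3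
      change -∑ e ∈ S ∩ B2, x0 e ≤ (s2 : ℚ) * r2 S - (S ∩ B2).card
      linarith
    | .inr (.inr W) =>
      rw [hA3]
      exact hK W.1 W.2)
  -- tight rows stay tight
  have ht1 : ∀ S, Tight r1 s1 (res B1 x0) S → Tight r1 s1 (res B1 x) S := by
    intro S hS
    unfold Tight at hS ⊢
    rw [sum_res] at hS ⊢
    have h3 := hxt (.inl S)
    rw [hA1, hA1] at h3
    exact h3 hS
  have ht2 : ∀ S, Tight r2 s2 (res B2 fun e => 1 - x0 e) S →
      Tight r2 s2 (res B2 fun e => 1 - x e) S := by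
    intro S hS
    unfold Tight at hS ⊢
    rw [hs2] at hS ⊢
    have h3 := hxt (.inr (.inl S))
    rw [hA2, hA2] at h3
    have h4 : -∑ e ∈ S ∩ B2, x e = (s2 : ℚ) * r2 S - (S ∩ B2).card := h3 (by
      change -∑ e ∈ S ∩ B2, x0 e = (s2 : ℚ) * r2 S - (S ∩ B2).card
      linarith)
    linarith
  refine ⟨x, hx01, ⟨⟨h1.feas.rk, ?_, ?_, ?_, ?_⟩, fun W hW => ht1 _ (h1.tt W hW), h1.mb⟩,
    ⟨⟨h2.feas.rk, ?_, ?_, ?_, ?_⟩, fun W hW => ht2 _ (h2.tt W hW), h2.mb⟩, ?_, hxk, ?_⟩
  · intro e
    by_cases he : e ∈ B1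
    · rw [res_mem he]
      exact (hx01 e).1
    · rw [res_not he]
  · intro e
    by_cases he : e ∈ B1
    · rw [res_mem he]
      exact (hx01 e).2
    · rw [res_not he]
      exact zero_le_one
  · intro S
    rw [sum_res]
    have h3 := hxr (.inl S)
    rw [hA1] at h3
    exact h3
  · exact ht1 _ h1.feas.tight_univ
  · intro e
    by_cases he : e ∈ B2
    · rw [res_mem he]
      have := (hx01 e).2
      linarith
    · rw [res_not he]
  · intro e
    by_cases he : e ∈ B2
    · rw [res_mem he]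
      have := (hx01 e).1
      linarith
    · rw [res_not he]
      exact zero_le_one
  · intro S
    rw [hs2]
    have h3 := hxr (.inr (.inl S))
    rw [hA2] at h3
    have h4 : -∑ e ∈ S ∩ B2, x e ≤ (s2 : ℚ) * r2 S - (S ∩ B2).card := h3
    linarith
  · exact ht2 _ h2.feas.tight_univ
  · intro W hW
    have h3 := hxr (.inr (.inr ⟨W, hW⟩))
    rw [hA3] at h3
    exact h3
  · intro y hy0 hy1 hy2 hy3
    apply hxv y
    · intro e he
      apply hy0
      rw [mem_frac]
      rintro ⟨h3, h4⟩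
      exact he.elim h3 h4
    · intro i hi
      match i with
      | .inl S =>
        rw [hA1] at hi ⊢
        apply hy1
        unfold Tight
        rw [sum_res]
        exact hi
      | .inr (.inl S) =>
        rw [hA2] at hi ⊢
        rw [neg_eq_zero]
        apply hy2
        unfold Tight
        rw [hs2]
        have h4 : -∑ e ∈ S ∩ B2, x e = (s2 : ℚ) * r2 S - (S ∩ B2).card := hi
        linarith
      | .inr (.inr W) =>
        rw [hA3] at hi ⊢
        exact hy3 W.1 W.2 hi

/-- **the step** at a vertex -/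
theorem step2 (hlam : ∀ X ∈ K, ∀ Y ∈ K, X ⊆ Y ∨ Y ⊆ X ∨ Disjoint X Y)
    (hne : ∀ W ∈ K, W.Nonempty) (hup : ∀ W ∈ K, W ≠ univ) (up : Finset V → ℤ) {x : E → ℚ}
    (h01 : ∀ e, 0 ≤ x e ∧ x e ≤ 1)
    (h1 : SideSt a b K s1 B1 r1 x) (h2 : SideSt a b K s2 B2 r2 (fun e => 1 - x e))
    (hv : ∀ y : E → ℚ, (∀ e, e ∉ frac x → y e = 0) →
        (∀ S, Tight r1 s1 (res B1 x) S → ∑ e ∈ S ∩ B1, y e = 0) →
        (∀ S, Tight r2 s2 (res B2 fun e => 1 - x e) S → ∑ e ∈ S ∩ B2, y e = 0) →
        (∀ W ∈ K, ∑ e ∈ cut a b W, x e = (up W : ℚ) → ∑ e ∈ cut a b W, y e = 0) → y = 0)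
    (hfr : (frac x).Nonempty) :
    (∃ D ∈ blks r1 s1 (res B1 x), D.card ≤ 7) ∨
      (∃ D ∈ blks r2 s2 (res B2 fun e => 1 - x e), D.card ≤ 7) ∨
      ∃ W ∈ K, (cut a b W ∩ frac x).card ≤ 7 := by
  classical
  have hKs : (K.filter fun W => ∑ e ∈ cut a b W, x e = (up W : ℚ)) ⊆ K := filter_subset _ _
  have hf : frac (fun e => 1 - x e) = frac x := by
    ext e
    rw [mem_frac, mem_frac]
    constructor
    · rintro ⟨h3, h4⟩
      refine ⟨fun h5 => h4 ?_, fun h5 => h3 ?_⟩
      · rw [h5, sub_zero]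
      · rw [h5, sub_self]
    · rintro ⟨h3, h4⟩
      refine ⟨fun h5 => h4 ?_, fun h5 => h3 ?_⟩
      · linarith
      · linarith
  have key := count2 a b x (K.filter fun W => ∑ e ∈ cut a b W, x e = (up W : ℚ))
    (fun X hX Y hY => hlam X (hKs hX) Y (hKs hY)) (fun W hW => hne W (hKs hW))
    (fun W hW => hup W (hKs hW)) (blks r1 s1 (res B1 x)) (blks r2 s2 (res B2 fun e => 1 - x e))
    ((h1.anti hKs).side (Subset.refl _)) ((h2.anti hKs).side (by rw [hf]))
    h01 (fun W hW => ⟨up W, (mem_filter.1 hW).2⟩)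
    (fun y hy0 hy1 hy2 hy3 => hv y hy0 (fun S hS => h1.ker hy0 hy1 hS)
      (fun S hS => h2.ker (by rw [hf]; exact hy0) hy2 hS)
      (fun W hW hWt => hy3 W (mem_filter.2 ⟨hW, hWt⟩))) hfr
  rcases key with h3 | h3 | ⟨W, hW, h3⟩
  · exact Or.inl h3
  · exact Or.inr (Or.inl h3)
  · exact Or.inr (Or.inr ⟨W, hKs hW, h3⟩)

theorem fin_side {s k c : ℕ} (hs : k + c = s) {y : E → ℚ} {r : Finset E → ℕ} (h : Feas r s y)
    (A : Finset E) : (k : ℚ) * r univ ≤ ∑ e ∈ Aᶜ, y e + k * r A := by
  have h1 : ∑ e ∈ A, y e + ∑ e ∈ Aᶜ, y e = ∑ e, y e := sum_add_sum_compl A y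
  have h2 := h.top
  have h3 := h.le A
  have h4 : (r A : ℚ) ≤ r univ := by exact_mod_cast h.rk.mono A univ (subset_univ A)
  have h5 : (s : ℚ) = k + c := by
    rw [← hs]
    push_cast
    ring
  have h6 : (0 : ℚ) ≤ (c : ℚ) * ((r univ : ℚ) - r A) :=
    mul_nonneg (Nat.cast_nonneg c) (by linarith)
  have h7 : (s : ℚ) * r univ - s * r A = (k : ℚ) * r univ - k * r A +
      c * ((r univ : ℚ) - r A) := by
    rw [h5]
    ring
  linarith

/-- giving up a small block of one side, backwards -/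
theorem SideSt.back {k c : ℕ} (hs : k + c = s) (h : SideSt a b K s B r z) {P M : Finset E}
    (hPM : P ⊆ M) (hM : Tight r s (res B z) M)
    (hc : (frac (res B z) ∩ (M \ P)).card ≤ c) {z' : E → ℚ} (h0 : ∀ e, 0 ≤ z' e)
    (h1 : ∀ e, z e = 1 → z' e = 1)
    (hw : ∀ A : Finset E, (k : ℚ) * fr r P M univ ≤
      ∑ e ∈ Aᶜ, res (B \ (M \ P)) z' e + k * fr r P M A) (A : Finset E) :
    (k : ℚ) * r univ ≤ ∑ e ∈ Aᶜ, res B z' e + k * r A := by
  refine fr_back hs h.feas hPM hM hc (w := res B z') ?_ ?_ ?_ A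
  · intro e
    by_cases he : e ∈ B
    · rw [res_mem he]
      exact h0 e
    · rw [res_not he]
  · intro e _ he
    by_cases hB : e ∈ B
    · rw [res_mem hB] at he ⊢
      exact h1 e he
    · rw [res_not hB] at he
      exact absurd he.symm one_ne_zero
  · intro A'
    rw [off_res]
    exact hw A'

/-- **the loop** -/
theorem loop2 (k1 k2 : ℕ) (up : Finset V → ℤ) : ∀ (n : ℕ) (K : Finset (Finset V))
    (B1 B2 : Finset E) (r1 r2 : Finset E → ℕ) (x0 : E → ℚ), B1.card + B2.card + K.card = n →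
    (∀ X ∈ K, ∀ Y ∈ K, X ⊆ Y ∨ Y ⊆ X ∨ Disjoint X Y) → (∀ W ∈ K, W.Nonempty) →
    (∀ W ∈ K, W ≠ univ) → (∀ e, 0 ≤ x0 e ∧ x0 e ≤ 1) →
    SideSt a b K (k1 + 7) B1 r1 x0 → SideSt a b K (k2 + 7) B2 r2 (fun e => 1 - x0 e) →
    (∀ W ∈ K, ∑ e ∈ cut a b W, x0 e ≤ (up W : ℚ)) →
    ∃ x : E → ℚ, (∀ e, x e = 0 ∨ x e = 1) ∧ (∀ e, x0 e = 0 ∨ x0 e = 1 → x e = x0 e) ∧
      (∀ W ∈ K, ∑ e ∈ cut a b W, x e ≤ (up W : ℚ) + 7) ∧
      (∀ A : Finset E, (k1 : ℚ) * r1 univ ≤ ∑ e ∈ Aᶜ, res B1 x e + k1 * r1 A) ∧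
      (∀ A : Finset E, (k2 : ℚ) * r2 univ ≤
        ∑ e ∈ Aᶜ, res B2 (fun e => 1 - x e) e + k2 * r2 A) := by
  classical
  intro n
  induction n using Nat.strong_induction_on with
  | _ n ih =>
    intro K B1 B2 r1 r2 x0 hn hlam hne hup h01 h1 h2 hK
    obtain ⟨x, hx01, g1, g2, hxK, hxk, hxv⟩ := vertex2 up h01 h1 h2 hK
    by_cases hfr : (frac x).Nonempty
    · rcases step2 hlam hne hup up hx01 g1 g2 hxv hfr with ⟨D, hD, hc⟩ | ⟨D, hD, hc⟩ | ⟨W, hW, hc⟩
      · -- a block of the first side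
        obtain ⟨P, M, hPM, hP, hM, ⟨e, he, heD⟩, hsub⟩ := exists_pm g1.feas hD
        have hlt : (B1 \ (M \ P)).card < B1.card := by
          apply card_lt_card
          rw [ssubset_iff_of_subset sdiff_subset]
          exact ⟨e, (mem_frac_res.1 he).1, fun h => (mem_sdiff.1 h).2 heD⟩
        obtain ⟨x', q1, q2, q3, q4, q5⟩ := ih ((B1 \ (M \ P)).card + B2.card + K.card)
          (by omega) K (B1 \ (M \ P)) B2 (fr r1 P M) r2 x rfl hlam hne hup hx01
          (g1.free (by omega) hPM hP hM) g2 hxK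
        refine ⟨x', q1, fun e he => ?_, q3, ?_, q5⟩
        · rw [q2 e (by rw [hxk e he]; exact he), hxk e he]
        · intro A
          refine g1.back rfl hPM hM ((card_le_card hsub).trans hc) (fun e => ?_) (fun e he => ?_)
            q4 A
          · rcases q1 e with h | h
            · rw [h]
            · rw [h]
              exact zero_le_one
          · rw [q2 e (Or.inr he), he]
      · -- a block of the second side
        obtain ⟨P, M, hPM, hP, hM, ⟨e, he, heD⟩, hsub⟩ := exists_pm g2.feas hD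
        have hlt : (B2 \ (M \ P)).card < B2.card := by
          apply card_lt_card
          rw [ssubset_iff_of_subset sdiff_subset]
          exact ⟨e, (mem_frac_res.1 he).1, fun h => (mem_sdiff.1 h).2 heD⟩
        obtain ⟨x', q1, q2, q3, q4, q5⟩ := ih (B1.card + (B2 \ (M \ P)).card + K.card)
          (by omega) K B1 (B2 \ (M \ P)) r1 (fr r2 P M) x rfl hlam hne hup hx01
          g1 (g2.free (by omega) hPM hP hM) hxK
        refine ⟨x', q1, fun e he => ?_, q3, q4, ?_⟩
        · rw [q2 e (by rw [hxk e he]; exact he), hxk e he]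
        · intro A
          refine g2.back rfl hPM hM ((card_le_card hsub).trans hc) (fun e => ?_) (fun e he => ?_)
            q5 A
          · rcases q1 e with h | h
            · rw [h, sub_zero]
              exact zero_le_one
            · rw [h, sub_self]
          · have h3 : x e = 0 := by linarith
            have h4 := q2 e (Or.inl h3)
            rw [h4, h3, sub_zero]
      · -- a cut
        have hlt : (K.erase W).card < K.card := card_erase_lt_of_mem hW
        have hKs : K.erase W ⊆ K := erase_subset _ _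
        obtain ⟨x', q1, q2, q3, q4, q5⟩ := ih (B1.card + B2.card + (K.erase W).card)
          (by omega) (K.erase W) B1 B2 r1 r2 x rfl
          (fun X hX Y hY => hlam X (hKs hX) Y (hKs hY)) (fun X hX => hne X (hKs hX))
          (fun X hX => hup X (hKs hX)) hx01 (g1.anti hKs) (g2.anti hKs)
          (fun X hX => hxK X (hKs hX))
        refine ⟨x', q1, fun e he => ?_, fun X hX => ?_, q4, q5⟩
        · rw [q2 e (by rw [hxk e he]; exact he), hxk e he]
        · by_cases hXW : X = W
          · subst hXW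
            have h3 : ∑ e ∈ cut a b X, x' e ≤
                ∑ e ∈ cut a b X, (x e + if e ∈ frac x then 1 else 0) := by
              refine sum_le_sum fun e _ => ?_
              by_cases hf : e ∈ frac x
              · rw [if_pos hf]
                have h4 := (hx01 e).1
                rcases q1 e with h | h
                · rw [h]
                  linarith
                · rw [h]
                  linarith
              · rw [if_neg hf, add_zero]
                rw [mem_frac] at hf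
                have h5 : x e = 0 ∨ x e = 1 := by
                  by_cases h0 : x e = 0
                  · exact Or.inl h0
                  · right
                    by_contra h6
                    exact hf ⟨h0, h6⟩
                rw [q2 e h5]
            rw [sum_add_distrib] at h3
            have h4 : ∑ e ∈ cut a b X, (if e ∈ frac x then (1 : ℚ) else 0) ≤ 7 := by
              rw [sum_ite_mem, sum_const, nsmul_eq_mul, mul_one]
              exact_mod_cast hc
            have h5 := hxK X hW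
            linarith
          · exact q3 X (mem_erase.2 ⟨hXW, hX⟩)
    · -- everything is integral
      rw [not_nonempty_iff_eq_empty] at hfr
      have hi : ∀ e, x e = 0 ∨ x e = 1 := by
        intro e
        by_cases h0 : x e = 0
        · exact Or.inl h0
        · right
          by_contra h3
          have h4 : e ∈ frac x := mem_frac.2 ⟨h0, h3⟩
          rw [hfr] at h4
          exact notMem_empty e h4
      refine ⟨x, hi, hxk, fun W hW => ?_, fun A => fin_side rfl g1.feas A,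
        fun A => fin_side rfl g2.feas A⟩
      have h3 := hxK W hW
      linarith

end Pool.Agent.Lib.MP_21a058_co.Two
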