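import Pool.Agent.Lib.MP_21a058_co.Duo.Glue
import Pool.Agent.Lib.MP_21a058_co.Two.Fin

/-! MP_21a058_co: the rounding theorem for disjoint spanning trees and one laminar family. -/

set_option autoImplicit false

namespace Pool.Agent.Lib.MP_21a058_co.Two

open Finset
open Pool.Agent.Lib.MP_21a058_co.P
open Pool.Agent.Lib.MP_21a058_co.Every

/-- **two-sided rounding for one laminar family**: `s` of `t` disjoint spanning trees, with at most
their proportional share of every cut of the family, up to an additive constant -/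
theorem sel2 {V E : Type} [Fintype V] [DecidableEq V] [Fintype E] [DecidableEq E] (a b : E → V)
    {s t : ℕ} (hst : s ≤ t) (ht : 0 < t) (T : Fin t → Finset E) (hT : Trees a b T)
    (L : Finset (Finset V)) (hne : ∀ Y ∈ L, Y.Nonempty)
    (hlam : ∀ X ∈ L, ∀ Y ∈ L, X ⊆ Y ∨ Y ⊆ X ∨ Disjoint X Y)
    (hL : ∀ Y ∈ L, ∀ i, (T i ∩ ins a b Y).card + 1 = Y.card) :
    ∃ C : Fin s → Finset E, Trees a b C ∧ un C ⊆ un T ∧
      ∀ Y ∈ L, t * (un C ∩ cut a b Y).card ≤ s * (un T ∩ cut a b Y).card + 6 * t :=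
  sel2_of a b (Duo.count_all a b s) hst ht T hT L hne hlam hL


end Pool.Agent.Lib.MP_21a058_co.Two
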